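import Mathlib

/-! # Rough homogeneous kernels: integrability in polar coordinates -/

set_option autoImplicit false

open MeasureTheory Filter Topology Metric Set
open scoped Real ENNReal NNReal

namespace Pool.Agent.P8H66.RS

/-- polar coordinates for products of a radial and an angular function -/
lemma polar_lintegral (A B : ℝ → ℝ≥0∞) (hA : Measurable A) (hB : Measurable B) :
    ∫⁻ z : ℂ, A ‖z‖ * B z.arg =
      (∫⁻ r in Ioi (0:ℝ), ENNReal.ofReal r * A r) * ∫⁻ t in Ioo (-π) π, B t := by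
  rw [← Complex.lintegral_comp_polarCoord_symm]
  have h1 : ∀ p ∈ polarCoord.target, ENNReal.ofReal p.1 • (A ‖Complex.polarCoord.symm p‖ *
      B (Complex.polarCoord.symm p).arg) = (ENNReal.ofReal p.1 * A p.1) * B p.2 := by
    intro p hp
    have hp' : Complex.polarCoord (Complex.polarCoord.symm p) = p :=
      Complex.polarCoord.right_inv (by rwa [Complex.polarCoord_target])
    rw [Complex.polarCoord_apply] at hp'
    have e1 : ‖Complex.polarCoord.symm p‖ = p.1 := congrArg Prod.fst hp'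
    have e2 : (Complex.polarCoord.symm p).arg = p.2 := congrArg Prod.snd hp'
    rw [e1, e2, smul_eq_mul, mul_assoc]
  rw [setLIntegral_congr_fun polarCoord.open_target.measurableSet h1]
  rw [polarCoord_target]
  rw [Measure.volume_eq_prod, ← Measure.prod_restrict]
  rw [lintegral_prod_mul (f := fun r => ENNReal.ofReal r * A r) (g := B)]
  · exact (ENNReal.measurable_ofReal.mul hA).aemeasurable
  · exact hB.aemeasurable

/-- the homogeneous kernel with angular part `W` -/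
noncomputable def ker (W : ℝ → ℝ) (z : ℂ) : ℝ := W z.arg / ‖z‖ ^ 2

lemma ker_measurable {W : ℝ → ℝ} (hW : Measurable W) : Measurable (ker W) := by
  unfold ker
  exact (hW.comp Complex.measurable_arg).div ((measurable_norm).pow_const 2)

/-- admissible angular parts -/
structure Adm (W : ℝ → ℝ) : Prop where
  meas : Measurable W
  per : ∀ t, W (t + 2 * π) = W t
  odd : ∀ t, W (t + π) = - W t
  sqi : ∫⁻ t in Ioo (-π) π, ‖W t‖ₑ ^ 2 < ∞

lemma Adm.one {W : ℝ → ℝ} (h : Adm W) : ∫⁻ t in Ioo (-π) π, ‖W t‖ₑ < ∞ := by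
  have h1 : ∀ t, ‖W t‖ₑ ≤ 1 + ‖W t‖ₑ ^ 2 := by
    intro t
    rcases le_total ‖W t‖ₑ 1 with h | h
    · exact h.trans le_self_add
    · calc ‖W t‖ₑ = ‖W t‖ₑ * 1 := (mul_one _).symm
        _ ≤ ‖W t‖ₑ * ‖W t‖ₑ := mul_le_mul_right h _
        _ = ‖W t‖ₑ ^ 2 := (sq _).symm
        _ ≤ _ := le_add_self
  calc ∫⁻ t in Ioo (-π) π, ‖W t‖ₑ ≤ ∫⁻ t in Ioo (-π) π, (1 + ‖W t‖ₑ ^ 2) := lintegral_mono h1
    _ = (∫⁻ t in Ioo (-π) π, 1) + ∫⁻ t in Ioo (-π) π, ‖W t‖ₑ ^ 2 := by
        rw [lintegral_add_left measurable_const]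
    _ < ∞ := by
        refine ENNReal.add_lt_top.2 ⟨?_, h.sqi⟩
        simp

/-- `|k(z)| |z|` is integrable on balls -/
lemma integrable_near {W : ℝ → ℝ} (h : Adm W) (M : ℝ) :
    IntegrableOn (fun z : ℂ => |ker W z| * ‖z‖) {z : ℂ | ‖z‖ ≤ M} := by
  refine ⟨(((ker_measurable h.meas).abs).mul measurable_norm).aestronglyMeasurable, ?_⟩
  have hs : MeasurableSet {z : ℂ | ‖z‖ ≤ M} := measurableSet_le measurable_norm measurable_const
  show ∫⁻ z in {z : ℂ | ‖z‖ ≤ M}, ‖|ker W z| * ‖z‖‖ₑ < ∞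
  rw [← lintegral_indicator hs]
  have h1 : ∀ z : ℂ, {z : ℂ | ‖z‖ ≤ M}.indicator (fun z => ‖|ker W z| * ‖z‖‖ₑ) z ≤
      ((Icc 0 M).indicator (fun r : ℝ => ENNReal.ofReal r⁻¹) ‖z‖) * ‖W z.arg‖ₑ := by
    intro z
    by_cases hz : ‖z‖ ≤ M
    · rw [indicator_of_mem (show z ∈ {z : ℂ | ‖z‖ ≤ M} from hz),
        indicator_of_mem (show ‖z‖ ∈ Icc 0 M from ⟨norm_nonneg _, hz⟩)]
      have e : |ker W z| * ‖z‖ = ‖z‖⁻¹ * |W z.arg| := by
        unfold ker
        rw [abs_div, abs_of_nonneg (sq_nonneg ‖z‖)]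
        rcases eq_or_ne ‖z‖ 0 with h0 | h0
        · rw [h0]; simp
        · field_simp
      rw [e, enorm_mul, Real.enorm_of_nonneg (inv_nonneg.2 (norm_nonneg z))]
      rw [show ‖|W z.arg|‖ₑ = ‖W z.arg‖ₑ by rw [← Real.norm_eq_abs, enorm_norm]]
    · rw [indicator_of_notMem (show z ∉ {z : ℂ | ‖z‖ ≤ M} from hz)]
      exact zero_le
  refine lt_of_le_of_lt (lintegral_mono h1) ?_
  rw [polar_lintegral _ (fun t => ‖W t‖ₑ) _ h.meas.enorm]
  · refine ENNReal.mul_lt_top ?_ h.one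
    calc ∫⁻ r in Ioi (0:ℝ), ENNReal.ofReal r * (Icc 0 M).indicator (fun r : ℝ => ENNReal.ofReal r⁻¹) r
        ≤ ∫⁻ r : ℝ, (Icc 0 M).indicator (fun _ => (1:ℝ≥0∞)) r := by
          refine (setLIntegral_mono' measurableSet_Ioi fun r hr => ?_).trans
            (setLIntegral_le_lintegral _ _)
          by_cases hr2 : r ∈ Icc 0 M
          · rw [indicator_of_mem hr2, indicator_of_mem hr2, ← ENNReal.ofReal_mul (le_of_lt hr),
              mul_inv_cancel₀ (ne_of_gt hr), ENNReal.ofReal_one]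
          · rw [indicator_of_notMem hr2, mul_zero]
            exact zero_le
      _ = volume (Icc (0:ℝ) M) := by
          rw [lintegral_indicator measurableSet_Icc]; simp
      _ < ∞ := by
          rw [Real.volume_Icc]; exact ENNReal.ofReal_lt_top
  · exact (ENNReal.measurable_ofReal.comp measurable_inv).indicator measurableSet_Icc

/-- the square of the kernel is integrable on annuli -/
lemma integrable_sq {W : ℝ → ℝ} (h : Adm W) :
    IntegrableOn (fun z : ℂ => ker W z ^ 2) {z : ℂ | 1 ≤ ‖z‖ ∧ ‖z‖ ≤ 2} := by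
  refine ⟨((ker_measurable h.meas).pow_const 2).aestronglyMeasurable, ?_⟩
  have hs : MeasurableSet {z : ℂ | 1 ≤ ‖z‖ ∧ ‖z‖ ≤ 2} :=
    (measurableSet_le measurable_const measurable_norm).inter
      (measurableSet_le measurable_norm measurable_const)
  show ∫⁻ z in {z : ℂ | 1 ≤ ‖z‖ ∧ ‖z‖ ≤ 2}, ‖ker W z ^ 2‖ₑ < ∞
  rw [← lintegral_indicator hs]
  have h1 : ∀ z : ℂ, {z : ℂ | 1 ≤ ‖z‖ ∧ ‖z‖ ≤ 2}.indicator (fun z => ‖ker W z ^ 2‖ₑ) z ≤
      ((Icc 0 2).indicator (fun _ : ℝ => (1:ℝ≥0∞)) ‖z‖) * ‖W z.arg‖ₑ ^ 2 := by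
    intro z
    by_cases hz : z ∈ {z : ℂ | 1 ≤ ‖z‖ ∧ ‖z‖ ≤ 2}
    · rw [indicator_of_mem hz,
        indicator_of_mem (show ‖z‖ ∈ Icc (0:ℝ) 2 from ⟨norm_nonneg _, hz.2⟩), one_mul,
        enorm_pow]
      refine pow_le_pow_left' ?_ 2
      unfold ker
      rw [enorm_le_iff_norm_le, norm_div]
      refine div_le_self (norm_nonneg _) ?_
      rw [norm_pow, norm_norm]
      exact one_le_pow₀ hz.1
    · rw [indicator_of_notMem hz]
      exact zero_le
  refine lt_of_le_of_lt (lintegral_mono h1) ?_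
  rw [polar_lintegral _ (fun t => ‖W t‖ₑ ^ 2) _ (h.meas.enorm.pow_const 2)]
  · refine ENNReal.mul_lt_top ?_ h.sqi
    calc ∫⁻ r in Ioi (0:ℝ), ENNReal.ofReal r * (Icc 0 2).indicator (fun _ : ℝ => (1:ℝ≥0∞)) r
        ≤ ∫⁻ r : ℝ, (Icc 0 2).indicator (fun _ => (2:ℝ≥0∞)) r := by
          refine (setLIntegral_mono' measurableSet_Ioi fun r hr => ?_).trans
            (setLIntegral_le_lintegral _ _)
          by_cases hr2 : r ∈ Icc (0:ℝ) 2
          · rw [indicator_of_mem hr2, indicator_of_mem hr2, mul_one]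
            rw [← ENNReal.ofReal_ofNat 2]
            exact ENNReal.ofReal_le_ofReal hr2.2
          · rw [indicator_of_notMem hr2, mul_zero]
            exact zero_le
      _ = 2 * volume (Icc (0:ℝ) 2) := by
          rw [lintegral_indicator measurableSet_Icc]; simp
      _ < ∞ := by
          rw [Real.volume_Icc]; exact ENNReal.mul_lt_top (by simp) ENNReal.ofReal_lt_top
  · exact measurable_const.indicator measurableSet_Icc

end Pool.Agent.P8H66.RS
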