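import Pool.Agent.P8H66.RS.A

/-! # Rough homogeneous kernels: symmetries and principal values -/

set_option autoImplicit false

open MeasureTheory Filter Topology Metric Set
open scoped Real ENNReal NNReal

namespace Pool.Agent.P8H66.RS

lemma Adm.per_int {W : ℝ → ℝ} (h : Adm W) : Function.Periodic W (2 * π) := h.per

/-- rotation -/
lemma ker_rot {W : ℝ → ℝ} (h : Adm W) (t : ℝ) {z : ℂ} (hz : z ≠ 0) :
    ker W (Complex.exp (t * Complex.I) * z) = W (z.arg + t) / ‖z‖ ^ 2 := by
  unfold ker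
  rw [norm_mul, Complex.norm_exp_ofReal_mul_I, one_mul]
  congr 1
  have h1 : ((Complex.exp (t * Complex.I) * z).arg : Real.Angle) = ((z.arg + t : ℝ) : Real.Angle) := by
    rw [Complex.arg_mul_coe_angle (Complex.exp_ne_zero _) hz]
    have h2 : ((Complex.exp (t * Complex.I)).arg : Real.Angle) = (t : Real.Angle) := by
      have := Complex.arg_cos_add_sin_mul_I_coe_angle (t : Real.Angle)
      rwa [Real.Angle.cos_coe, Real.Angle.sin_coe, Complex.ofReal_cos, Complex.ofReal_sin,
        ← Complex.exp_mul_I] at this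
    rw [h2, Real.Angle.coe_add]
    exact add_comm _ _
  obtain ⟨n, hn⟩ := Real.Angle.angle_eq_iff_two_pi_dvd_sub.1 h1
  have h2 : (Complex.exp (t * Complex.I) * z).arg = z.arg + t + n * (2 * π) := by linarith
  rw [h2]
  exact h.per_int.int_mul n _

lemma ker_neg {W : ℝ → ℝ} (h : Adm W) (z : ℂ) : ker W (-z) = - ker W z := by
  rcases eq_or_ne z 0 with rfl | hz
  · simp [ker]
  · have h1 := ker_rot h π hz
    rw [Complex.exp_pi_mul_I, neg_one_mul, h.odd] at h1
    rw [h1]
    unfold ker
    ring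

lemma ker_smul {W : ℝ → ℝ} (z : ℂ) {t : ℝ} (ht : 0 < t) :
    ker W (t • z) = (t ^ 2)⁻¹ * ker W z := by
  unfold ker
  rw [Complex.real_smul, Complex.arg_real_mul z ht, norm_mul, Complex.norm_real,
    Real.norm_of_nonneg ht.le, mul_pow]
  field_simp

/-- integrability off the origin, on bounded sets -/
lemma integrable_annulus {W : ℝ → ℝ} (h : Adm W) {ε : ℝ} (hε : 0 < ε) (M : ℝ) :
    IntegrableOn (ker W) {z : ℂ | ε < ‖z‖ ∧ ‖z‖ ≤ M} := by
  have hs : MeasurableSet {z : ℂ | ε < ‖z‖ ∧ ‖z‖ ≤ M} :=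
    (measurableSet_lt measurable_const measurable_norm).inter
      (measurableSet_le measurable_norm measurable_const)
  have h1 : IntegrableOn (fun z : ℂ => ε⁻¹ * (|ker W z| * ‖z‖)) {z : ℂ | ε < ‖z‖ ∧ ‖z‖ ≤ M} :=
    ((integrable_near h M).mono_set fun z hz => hz.2).const_mul _
  refine Integrable.mono' h1 (ker_measurable h.meas).aestronglyMeasurable ?_
  rw [ae_restrict_iff' hs]
  refine ae_of_all _ fun z hz => ?_
  rw [Real.norm_eq_abs]
  have h2 : 1 ≤ ε⁻¹ * ‖z‖ := by
    rw [inv_mul_eq_div, one_le_div hε]; exact hz.1.le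
  calc |ker W z| = |ker W z| * 1 := (mul_one _).symm
    _ ≤ |ker W z| * (ε⁻¹ * ‖z‖) := mul_le_mul_of_nonneg_left h2 (abs_nonneg _)
    _ = _ := by ring

/-- the value of the singular integral of a Lipschitz function -/
noncomputable def pv (W : ℝ → ℝ) (f : ℂ → ℝ) (x : ℂ) : ℝ :=
  ∫ y : ℂ, ker W y * (f (x - y) - f (x + y)) / 2

lemma pv_integrable {W : ℝ → ℝ} (h : Adm W) {f : ℂ → ℝ} {L : ℝ≥0} (hf : LipschitzWith L f)
    {M : ℝ} (hM : ∀ y, M < ‖y‖ → f y = 0) (x : ℂ) :
    Integrable fun y : ℂ => ker W y * (f (x - y) - f (x + y)) / 2 := by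
  have hs : MeasurableSet {z : ℂ | ‖z‖ ≤ M + ‖x‖} := measurableSet_le measurable_norm measurable_const
  have h1 := ((integrable_near h (M + ‖x‖)).const_mul (L : ℝ))
  have h2 := (integrable_indicator_iff hs).2 h1
  refine h2.mono' ?_ (ae_of_all _ fun y => ?_)
  · refine Measurable.aestronglyMeasurable ?_
    refine ((ker_measurable h.meas).mul ?_).div_const 2
    exact (hf.continuous.comp (continuous_const.sub continuous_id)).measurable.sub
      (hf.continuous.comp (continuous_const.add continuous_id)).measurable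
  · by_cases hy : ‖y‖ ≤ M + ‖x‖
    · rw [indicator_of_mem (show y ∈ {z : ℂ | ‖z‖ ≤ M + ‖x‖} from hy)]
      have h3 : |f (x - y) - f (x + y)| ≤ L * (2 * ‖y‖) := by
        have := hf.dist_le_mul (x - y) (x + y)
        rw [Real.dist_eq, dist_eq_norm] at this
        refine this.trans (le_of_eq ?_)
        rw [show x - y - (x + y) = -((2:ℂ) * y) by ring, norm_neg, norm_mul]
        simp
      rw [Real.norm_eq_abs, abs_div, abs_mul, abs_two]
      have h4 := mul_le_mul_of_nonneg_left h3 (abs_nonneg (ker W y))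
      rw [div_le_iff₀ (by norm_num)]
      refine h4.trans (le_of_eq ?_)
      ring
    · rw [indicator_of_notMem (show y ∉ {z : ℂ | ‖z‖ ≤ M + ‖x‖} from hy)]
      push Not at hy
      have e1 : f (x - y) = 0 := by
        apply hM
        have := norm_sub_norm_le y x
        rw [norm_sub_rev] at this
        linarith
      have e2 : f (x + y) = 0 := by
        apply hM
        have := norm_sub_norm_le y (-x)
        rw [sub_neg_eq_add, norm_neg, add_comm y x] at this
        linarith
      rw [e1, e2]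
      simp

lemma pv_trunc {W : ℝ → ℝ} (h : Adm W) {f : ℂ → ℝ} {L : ℝ≥0} (hf : LipschitzWith L f)
    {M : ℝ} (hM : ∀ y, M < ‖y‖ → f y = 0) (x : ℂ) {ε : ℝ} (hε : 0 < ε) :
    ∫ y in {y : ℂ | ε < ‖y‖}, ker W y * f (x - y) =
      ∫ y in {y : ℂ | ε < ‖y‖}, ker W y * (f (x - y) - f (x + y)) / 2 := by
  have hs : MeasurableSet {z : ℂ | ε < ‖z‖} := measurableSet_lt measurable_const measurable_norm
  -- boundedness of f
  obtain ⟨B, hB⟩ : ∃ B : ℝ, ∀ y, |f y| ≤ B := by
    refine ⟨L * (2 * |M| + 1) , fun y => ?_⟩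
    by_cases hy : M < ‖y‖
    · rw [hM y hy, abs_zero]; positivity
    · push Not at hy
      have h0 : f ((|M| + 1 : ℝ) : ℂ) = 0 := by
        apply hM
        rw [Complex.norm_real, Real.norm_of_nonneg (by positivity)]
        have := le_abs_self M
        linarith
      have := hf.dist_le_mul y ((|M| + 1 : ℝ) : ℂ)
      rw [h0, Real.dist_eq, sub_zero] at this
      refine this.trans ?_
      refine mul_le_mul_of_nonneg_left ?_ L.2
      rw [dist_eq_norm]
      refine (norm_sub_le _ _).trans ?_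
      rw [Complex.norm_real, Real.norm_of_nonneg (by positivity)]
      have := le_abs_self M
      linarith
  have hint : ∀ s : ℂ → ℂ, Continuous s → (∀ y, ‖y‖ ≤ ‖s y‖ + ‖x‖) →
      IntegrableOn (fun y => ker W y * f (s y)) {y : ℂ | ε < ‖y‖} := by
    intro s hs1 hs2
    have h1 := ((integrable_annulus h hε (M + ‖x‖)).norm.const_mul B)
    have hs' : MeasurableSet {z : ℂ | ε < ‖z‖ ∧ ‖z‖ ≤ M + ‖x‖} :=
      (measurableSet_lt measurable_const measurable_norm).inter
        (measurableSet_le measurable_norm measurable_const)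
    have h2 := ((integrable_indicator_iff hs').2 h1).integrableOn (s := {y : ℂ | ε < ‖y‖})
    refine h2.mono' ?_ ?_
    · exact ((ker_measurable h.meas).mul (hf.continuous.comp hs1).measurable).aestronglyMeasurable
    · rw [ae_restrict_iff' hs]
      refine ae_of_all _ fun y hy => ?_
      by_cases hy2 : ‖y‖ ≤ M + ‖x‖
      · rw [indicator_of_mem (show y ∈ {z : ℂ | ε < ‖z‖ ∧ ‖z‖ ≤ M + ‖x‖} from ⟨hy, hy2⟩),
          norm_mul, mul_comm B]
        exact mul_le_mul_of_nonneg_left (hB _) (norm_nonneg _)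
      · push Not at hy2
        have e1 : f (s y) = 0 := by
          apply hM
          have := hs2 y
          linarith
        rw [e1]
        simp only [mul_zero, norm_zero]
        apply indicator_nonneg
        intro z _
        have : 0 ≤ B := (abs_nonneg _).trans (hB 0)
        positivity
  have i1 := hint (fun y => x - y) (by fun_prop) (fun y => by
    have := norm_sub_norm_le y x
    rw [norm_sub_rev] at this
    linarith)
  have i2 := hint (fun y => x + y) (by fun_prop) (fun y => by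
    have := norm_sub_norm_le y (-x)
    rw [sub_neg_eq_add, norm_neg, add_comm y x] at this
    linarith)
  have e : ∫ y in {y : ℂ | ε < ‖y‖}, ker W y * f (x + y) =
      - ∫ y in {y : ℂ | ε < ‖y‖}, ker W y * f (x - y) := by
    rw [← integral_indicator hs, ← integral_indicator hs, ← integral_neg,
      ← integral_neg_eq_self]
    congr 1
    funext y
    by_cases hy : ε < ‖y‖
    · rw [indicator_of_mem (show -y ∈ {z : ℂ | ε < ‖z‖} by
        show ε < ‖-y‖
        rwa [norm_neg]), indicator_of_mem (show y ∈ {z : ℂ | ε < ‖z‖} from hy), ker_neg h]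
      rw [← sub_eq_add_neg]
      ring
    · rw [indicator_of_notMem (show -y ∉ {z : ℂ | ε < ‖z‖} by
        show ¬ ε < ‖-y‖
        rwa [norm_neg]), indicator_of_notMem (show y ∉ {z : ℂ | ε < ‖z‖} from hy), neg_zero]
  have e2 : ∫ y in {y : ℂ | ε < ‖y‖}, ker W y * (f (x - y) - f (x + y)) / 2 =
      ((∫ y in {y : ℂ | ε < ‖y‖}, ker W y * f (x - y)) -
        ∫ y in {y : ℂ | ε < ‖y‖}, ker W y * f (x + y)) / 2 := by
    rw [← integral_sub i1 i2, ← integral_div]
    congr 1
    funext y
    ring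
  rw [e2, e]
  ring

lemma pv_tendsto {W : ℝ → ℝ} (h : Adm W) {f : ℂ → ℝ} {L : ℝ≥0} (hf : LipschitzWith L f)
    {M : ℝ} (hM : ∀ y, M < ‖y‖ → f y = 0) (x : ℂ) :
    Tendsto (fun ε : ℝ => ∫ y in {y : ℂ | ε < ‖y‖}, ker W y * f (x - y)) (𝓝[>] 0)
      (𝓝 (pv W f x)) := by
  have h1 : ∀ᶠ ε : ℝ in 𝓝[>] 0, ∫ y : ℂ, {y : ℂ | ε < ‖y‖}.indicator
      (fun y => ker W y * (f (x - y) - f (x + y)) / 2) y =
      ∫ y in {y : ℂ | ε < ‖y‖}, ker W y * f (x - y) := by
    filter_upwards [self_mem_nhdsWithin] with ε hε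
    rw [integral_indicator (measurableSet_lt measurable_const measurable_norm)]
    exact (pv_trunc h hf hM x hε).symm
  refine Tendsto.congr' h1 ?_
  unfold pv
  have hi := pv_integrable h hf hM x
  refine tendsto_integral_filter_of_dominated_convergence
    (fun y => ‖ker W y * (f (x - y) - f (x + y)) / 2‖) ?_ ?_ hi.norm ?_
  · refine Eventually.of_forall fun ε => ?_
    exact hi.aestronglyMeasurable.indicator (measurableSet_lt measurable_const measurable_norm)
  · refine Eventually.of_forall fun ε => ae_of_all _ fun y => ?_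
    exact norm_indicator_le_norm_self _ _
  · have h0 : ∀ᵐ y : ℂ, y ≠ 0 := by
      simp [ae_iff, measure_singleton]
    filter_upwards [h0] with y hy
    refine tendsto_const_nhds.congr' ?_
    have : ∀ᶠ ε : ℝ in 𝓝[>] 0, ε < ‖y‖ :=
      nhdsWithin_le_nhds (Iio_mem_nhds (norm_pos_iff.2 hy))
    filter_upwards [this] with ε hε
    rw [indicator_of_mem (show y ∈ {y : ℂ | ε < ‖y‖} from hε)]

/-- off the support of `f` the principal value is a convergent integral -/
lemma pv_off {W : ℝ → ℝ} (h : Adm W) {f : ℂ → ℝ} {L : ℝ≥0} (hf : LipschitzWith L f)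
    {M : ℝ} (hM : ∀ y, M < ‖y‖ → f y = 0) (hs : ∀ y, ‖y‖ < 2 → f y = 0) {x : ℂ} (hx : ‖x‖ < 1) :
    pv W f x = ∫ y : ℂ, ker W (x - y) * f y := by
  have h1 := pv_tendsto h hf hM x
  have h2 : ∀ᶠ ε : ℝ in 𝓝[>] 0, ∫ y in {y : ℂ | ε < ‖y‖}, ker W y * f (x - y) =
      ∫ y : ℂ, ker W (x - y) * f y := by
    have : ∀ᶠ ε : ℝ in 𝓝[>] 0, ε < 1 :=
      nhdsWithin_le_nhds (Iio_mem_nhds (by norm_num))
    filter_upwards [this] with ε hε
    rw [← integral_indicator (measurableSet_lt measurable_const measurable_norm)]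
    rw [← integral_sub_left_eq_self (fun y => ker W (x - y) * f y) volume x]
    congr 1
    funext y
    simp only [sub_sub_cancel]
    by_cases hy : ε < ‖y‖
    · rw [indicator_of_mem (show y ∈ {y : ℂ | ε < ‖y‖} from hy)]
    · rw [indicator_of_notMem (show y ∉ {y : ℂ | ε < ‖y‖} from hy)]
      push Not at hy
      rw [hs (x - y), mul_zero]
      calc ‖x - y‖ ≤ ‖x‖ + ‖y‖ := norm_sub_le _ _
        _ < 2 := by linarith
  have h3 := (tendsto_congr' h2).1 h1
  exact (tendsto_const_nhds_iff.1 h3).symm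

end Pool.Agent.P8H66.RS
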