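import Pool.Agent.P8H66.RS.B

/-! # Rough homogeneous kernels: averaging over rotations -/

set_option autoImplicit false

open MeasureTheory Filter Topology Metric Set
open scoped Real ENNReal NNReal

namespace Pool.Agent.P8H66.RS

lemma Adm.integrableOn {W : ℝ → ℝ} (h : Adm W) : IntegrableOn W (Ioo (-π) π) :=
  ⟨h.meas.aestronglyMeasurable, h.one⟩

lemma Adm.intervalIntegrable {W : ℝ → ℝ} (h : Adm W) : IntervalIntegrable W volume (-π) π := by
  rw [intervalIntegrable_iff_integrableOn_Ioo_of_le (by linarith [Real.pi_pos])]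
  exact h.integrableOn

lemma Adm.intervalIntegrable' {W : ℝ → ℝ} (h : Adm W) (a b : ℝ) :
    IntervalIntegrable W volume a b := by
  have h1 := h.intervalIntegrable
  have h2 : IntervalIntegrable W volume (-π) (-π + 2 * π) := by
    rw [show -π + 2 * π = π by ring]; exact h1
  exact h.per_int.intervalIntegrable (by positivity) h2 a b

lemma Adm.shift_integrable {W : ℝ → ℝ} (h : Adm W) (α : ℝ) :
    IntegrableOn (fun t => W (α + t)) (Ioo (-π) π) := by
  rw [← intervalIntegrable_iff_integrableOn_Ioo_of_le (by linarith [Real.pi_pos])]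
  have := (h.intervalIntegrable' (α + -π) (α + π)).comp_add_left α
  simpa using this

lemma Adm.shift_norm {W : ℝ → ℝ} (h : Adm W) (α : ℝ) :
    ∫ t in Ioo (-π) π, |W (α + t)| = ∫ t in Ioo (-π) π, |W t| := by
  rw [← integral_Ioc_eq_integral_Ioo, ← integral_Ioc_eq_integral_Ioo,
    ← intervalIntegral.integral_of_le (by linarith [Real.pi_pos]),
    ← intervalIntegral.integral_of_le (by linarith [Real.pi_pos])]
  rw [intervalIntegral.integral_comp_add_left (fun t => |W t|) α]
  have hp : Function.Periodic (fun t => |W t|) (2 * π) := fun t => by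
    show |W (t + 2 * π)| = |W t|
    rw [h.per]
  have := hp.intervalIntegral_add_eq (α + -π) (-π)
  rw [show α + -π + 2 * π = α + π by ring, show -π + 2 * π = π by ring] at this
  exact this

lemma Adm.shift_cos {W : ℝ → ℝ} (h : Adm W) (m : ℕ) {b : ℝ}
    (hb : ∫ t in Ioo (-π) π, W t * Real.cos (m * t) = b)
    (hs : ∫ t in Ioo (-π) π, W t * Real.sin (m * t) = 0) (α β : ℝ) :
    ∫ t in Ioo (-π) π, W (α + t) * Real.cos (m * (β + t)) = b * Real.cos (m * (β - α)) := by
  rw [← integral_Ioc_eq_integral_Ioo,
    ← intervalIntegral.integral_of_le (by linarith [Real.pi_pos])] at hb hs ⊢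
  have hp : Function.Periodic (fun t => W t * Real.cos (m * (t + (β - α)))) (2 * π) := fun t => by
    show W (t + 2 * π) * Real.cos (m * (t + 2 * π + (β - α))) = _
    rw [h.per, show (m : ℝ) * (t + 2 * π + (β - α)) = m * (t + (β - α)) + m * (2 * π) by ring,
      Real.cos_add_nat_mul_two_pi]
  have h1 : ∫ t in (-π)..π, W (α + t) * Real.cos (m * (β + t)) =
      ∫ t in (-π)..π, (fun t => W t * Real.cos (m * (t + (β - α)))) (α + t) := by
    apply intervalIntegral.integral_congr
    intro t _
    show _ = W (α + t) * Real.cos (m * (α + t + (β - α)))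
    rw [show α + t + (β - α) = β + t by ring]
  rw [h1, intervalIntegral.integral_comp_add_left
    (fun t => W t * Real.cos (m * (t + (β - α)))) α]
  have h2 := hp.intervalIntegral_add_eq (α + -π) (-π)
  rw [show α + -π + 2 * π = α + π by ring, show -π + 2 * π = π by ring] at h2
  rw [h2]
  have h3 : ∀ t : ℝ, W t * Real.cos (m * (t + (β - α))) =
      (W t * Real.cos (m * t)) * Real.cos (m * (β - α)) -
        (W t * Real.sin (m * t)) * Real.sin (m * (β - α)) := by
    intro t
    rw [mul_add, Real.cos_add]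
    ring
  simp_rw [h3]
  have i1 : IntervalIntegrable (fun t => W t * Real.cos (m * t)) volume (-π) π :=
    h.intervalIntegrable.mul_continuousOn (by fun_prop)
  have i2 : IntervalIntegrable (fun t => W t * Real.sin (m * t)) volume (-π) π :=
    h.intervalIntegrable.mul_continuousOn (by fun_prop)
  rw [intervalIntegral.integral_sub (i1.mul_const _) (i2.mul_const _),
    intervalIntegral.integral_mul_const, intervalIntegral.integral_mul_const, hb, hs]
  ring

/-- a bump times a character -/
noncomputable def wave (c : ℝ → ℝ) (m : ℕ) (y : ℂ) : ℝ := c ‖y‖ * Real.cos (m * y.arg)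

lemma wave_measurable {c : ℝ → ℝ} (hc : Measurable c) (m : ℕ) : Measurable (wave c m) := by
  unfold wave
  exact (hc.comp measurable_norm).mul
    (Real.measurable_cos.comp (measurable_const.mul Complex.measurable_arg))

lemma wave_rot (c : ℝ → ℝ) (m : ℕ) (t : ℝ) {y : ℂ} (hy : y ≠ 0) :
    wave c m (Complex.exp (t * Complex.I) * y) = c ‖y‖ * Real.cos (m * (y.arg + t)) := by
  unfold wave
  rw [norm_mul, Complex.norm_exp_ofReal_mul_I, one_mul]
  congr 1
  have h1 : ((Complex.exp (t * Complex.I) * y).arg : Real.Angle) = ((y.arg + t : ℝ) : Real.Angle) := by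
    rw [Complex.arg_mul_coe_angle (Complex.exp_ne_zero _) hy]
    have h2 : ((Complex.exp (t * Complex.I)).arg : Real.Angle) = (t : Real.Angle) := by
      have := Complex.arg_cos_add_sin_mul_I_coe_angle (t : Real.Angle)
      rwa [Real.Angle.cos_coe, Real.Angle.sin_coe, Complex.ofReal_cos, Complex.ofReal_sin,
        ← Complex.exp_mul_I] at this
    rw [h2, Real.Angle.coe_add]
    exact add_comm _ _
  obtain ⟨n, hn⟩ := Real.Angle.angle_eq_iff_two_pi_dvd_sub.1 h1
  have h2 : (Complex.exp (t * Complex.I) * y).arg = y.arg + t + n * (2 * π) := by linarith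
  rw [h2, show (m : ℝ) * (y.arg + t + n * (2 * π)) =
    m * (y.arg + t) + ((m * n : ℤ) : ℝ) * (2 * π) by push_cast; ring,
    Real.cos_add_int_mul_two_pi]

lemma rotation_emb (t : ℝ) : MeasurableEmbedding (rotation (Circle.exp t)) :=
  (rotation (Circle.exp t)).toHomeomorph.measurableEmbedding

lemma rotation_eq (t : ℝ) (z : ℂ) :
    rotation (Circle.exp t) z = Complex.exp (t * Complex.I) * z := by
  rw [rotation_apply, Circle.coe_exp]

/-- rotation invariance -/
lemma rot_pair (W : ℝ → ℝ) (f : ℂ → ℝ) (s : ℝ) (t : ℝ) :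
    ∫ x in ball (0:ℂ) s, ∫ y : ℂ, ker W (x - y) * f y =
      ∫ x in ball (0:ℂ) s, ∫ y : ℂ, ker W (Complex.exp (t * Complex.I) * (x - y)) *
        f (Complex.exp (t * Complex.I) * y) := by
  have h1 := (rotation (Circle.exp t)).measurePreserving.setIntegral_preimage_emb
    (rotation_emb t) (fun x => ∫ y : ℂ, ker W (x - y) * f y) (ball (0:ℂ) s)
  have h2 : (rotation (Circle.exp t)) ⁻¹' (ball (0:ℂ) s) = ball 0 s := by
    ext z
    rw [mem_preimage, mem_ball_zero_iff, mem_ball_zero_iff, LinearIsometryEquiv.norm_map]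
  rw [h2] at h1
  rw [← h1]
  congr 1
  funext x
  have h3 := (rotation (Circle.exp t)).measurePreserving.integral_comp (rotation_emb t)
    (fun y => ker W (rotation (Circle.exp t) x - y) * f y)
  rw [← h3]
  congr 1
  funext y
  rw [← map_sub, rotation_eq, rotation_eq]

end Pool.Agent.P8H66.RS
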