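import Pool.Agent.P8H66.RS.C

/-! # Rough homogeneous kernels: the averaging identity -/

set_option autoImplicit false

open MeasureTheory Filter Topology Metric Set
open scoped Real ENNReal NNReal

namespace Pool.Agent.P8H66.RS

/-- the region which contains the support of the waves -/
def shell (M : ℝ) : Set ℂ := {y | 2 ≤ ‖y‖ ∧ ‖y‖ ≤ M}

lemma shell_meas (M : ℝ) : MeasurableSet (shell M) :=
  (measurableSet_le measurable_const measurable_norm).inter
    (measurableSet_le measurable_norm measurable_const)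

lemma shell_fin (M : ℝ) : volume (shell M) < ∞ := by
  refine lt_of_le_of_lt (measure_mono ?_) (measure_closedBall_lt_top (x := (0:ℂ)) (r := M))
  intro y hy
  rw [mem_closedBall_zero_iff]
  exact hy.2

lemma triple_integrable {W : ℝ → ℝ} (h : Adm W) {c : ℝ → ℝ} (hc : Measurable c)
    (hc1 : ∀ r, |c r| ≤ 1) {M : ℝ} (hcs : ∀ r, r < 2 ∨ M < r → c r = 0) (m : ℕ) {s : ℝ}
    (hs : s ≤ 1) :
    Integrable (fun p : ℝ × (ℂ × ℂ) => ker W (Complex.exp (p.1 * Complex.I) * (p.2.1 - p.2.2)) *
      wave c m (Complex.exp (p.1 * Complex.I) * p.2.2))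
      ((volume.restrict (Ioo (-π) π)).prod ((volume.restrict (ball (0:ℂ) s)).prod volume)) := by
  have hD : Integrable (fun p : ℝ × (ℂ × ℂ) => |W ((p.2.1 - p.2.2).arg + p.1)| *
      (shell M).indicator (fun _ => (1:ℝ)) p.2.2)
      ((volume.restrict (Ioo (-π) π)).prod ((volume.restrict (ball (0:ℂ) s)).prod volume)) := by
    have hmeas : Measurable (fun p : ℝ × (ℂ × ℂ) => |W ((p.2.1 - p.2.2).arg + p.1)| *
      (shell M).indicator (fun _ => (1:ℝ)) p.2.2) := by
      refine Measurable.mul ?_ ?_
      · have h1 : Measurable (fun p : ℝ × (ℂ × ℂ) => (p.2.1 - p.2.2).arg + p.1) := by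
          refine Measurable.add ?_ measurable_fst
          exact Complex.measurable_arg.comp
            ((measurable_fst.comp measurable_snd).sub (measurable_snd.comp measurable_snd))
        exact (h.meas.comp h1).abs
      · exact (measurable_const.indicator (shell_meas M)).comp
          (measurable_snd.comp measurable_snd)
    rw [integrable_prod_iff' hmeas.aestronglyMeasurable]
    refine ⟨ae_of_all _ fun q => ?_, ?_⟩
    · exact ((h.shift_integrable (q.1 - q.2).arg).abs.mul_const
        ((shell M).indicator (fun _ => (1:ℝ)) q.2))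
    · have h2 : (fun q : ℂ × ℂ => ∫ t in Ioo (-π) π, ‖|W ((q.1 - q.2).arg + t)| *
          (shell M).indicator (fun _ => (1:ℝ)) q.2‖) = fun q : ℂ × ℂ =>
          (∫ t in Ioo (-π) π, |W t|) * (shell M).indicator (fun _ => (1:ℝ)) q.2 := by
        funext q
        have h3 : ∀ t : ℝ, ‖|W ((q.1 - q.2).arg + t)| *
          (shell M).indicator (fun _ => (1:ℝ)) q.2‖ = |W ((q.1 - q.2).arg + t)| *
            (shell M).indicator (fun _ => (1:ℝ)) q.2 := by
          intro t
          rw [Real.norm_of_nonneg]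
          exact mul_nonneg (abs_nonneg _) (indicator_nonneg (fun _ _ => zero_le_one) _)
        simp_rw [h3]
        rw [integral_mul_const, h.shift_norm]
      rw [h2]
      refine Integrable.mul_prod (f := fun _ : ℂ => ∫ t in Ioo (-π) π, |W t|)
        (g := (shell M).indicator (fun _ => (1:ℝ))) ?_ ?_
      · exact integrableOn_const (measure_ball_lt_top.ne)
      · rw [integrable_indicator_iff (shell_meas M)]
        exact integrableOn_const (shell_fin M).ne
  refine hD.mono' ?_ ?_
  · refine Measurable.aestronglyMeasurable ?_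
    have h1 : Measurable (fun p : ℝ × (ℂ × ℂ) => Complex.exp (p.1 * Complex.I)) := by
      fun_prop
    refine Measurable.mul ?_ ?_
    · exact (ker_measurable h.meas).comp (h1.mul
        ((measurable_fst.comp measurable_snd).sub (measurable_snd.comp measurable_snd)))
    · exact (wave_measurable hc m).comp (h1.mul (measurable_snd.comp measurable_snd))
  · have h1 : ∀ᵐ p ∂((volume.restrict (Ioo (-π) π)).prod
        ((volume.restrict (ball (0:ℂ) s)).prod (volume : Measure ℂ))), p.2.1 ∈ ball (0:ℂ) s := by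
      have h2 : ∀ᵐ q ∂((volume.restrict (ball (0:ℂ) s)).prod (volume : Measure ℂ)),
          q.1 ∈ ball (0:ℂ) s :=
        Measure.quasiMeasurePreserving_fst.ae (ae_restrict_mem measurableSet_ball)
      exact Measure.quasiMeasurePreserving_snd.ae h2
    filter_upwards [h1] with p hp
    rw [mem_ball_zero_iff] at hp
    by_cases hy : p.2.2 ∈ shell M
    · rw [indicator_of_mem hy, mul_one]
      have hy0 : p.2.2 ≠ 0 := by
        intro h0
        have := hy.1
        rw [h0, norm_zero] at this
        linarith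
      have hxy : 1 ≤ ‖p.2.1 - p.2.2‖ := by
        have := norm_sub_norm_le p.2.2 p.2.1
        rw [norm_sub_rev] at this
        linarith [hy.1]
      have hxy0 : p.2.1 - p.2.2 ≠ 0 := by
        intro h0
        rw [h0, norm_zero] at hxy
        linarith
      rw [ker_rot h _ hxy0, wave_rot _ _ _ hy0, norm_mul, norm_mul, norm_div, norm_pow, norm_norm]
      have e1 : ‖W ((p.2.1 - p.2.2).arg + p.1)‖ / ‖p.2.1 - p.2.2‖ ^ 2 ≤
          |W ((p.2.1 - p.2.2).arg + p.1)| := div_le_self (abs_nonneg _) (one_le_pow₀ hxy)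
      have e2 : ‖c ‖p.2.2‖‖ * ‖Real.cos (m * ((p.2.2).arg + p.1))‖ ≤ 1 := by
        refine mul_le_one₀ (hc1 _) (norm_nonneg _) ?_
        exact Real.abs_cos_le_one _
      calc _ ≤ |W ((p.2.1 - p.2.2).arg + p.1)| * 1 :=
            mul_le_mul e1 e2 (by positivity) (abs_nonneg _)
        _ = _ := mul_one _
    · rw [indicator_of_notMem hy, mul_zero]
      have : wave c m (Complex.exp (p.1 * Complex.I) * p.2.2) = 0 := by
        unfold wave
        rw [norm_mul, Complex.norm_exp_ofReal_mul_I, one_mul, hcs, zero_mul]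
        by_contra hcon
        push Not at hcon
        exact hy ⟨hcon.1, hcon.2⟩
      rw [this, mul_zero, norm_zero]

/-- The averaging identity. -/
lemma average {W : ℝ → ℝ} (h : Adm W) {c : ℝ → ℝ} (hc : Measurable c)
    (hc1 : ∀ r, |c r| ≤ 1) {M : ℝ} (hcs : ∀ r, r < 2 ∨ M < r → c r = 0) (m : ℕ) {s : ℝ}
    (hs : s ≤ 1) {b : ℝ} (hb : ∫ t in Ioo (-π) π, W t * Real.cos (m * t) = b)
    (hsin : ∫ t in Ioo (-π) π, W t * Real.sin (m * t) = 0) :
    (2 * π) * ∫ x in ball (0:ℂ) s, ∫ y : ℂ, ker W (x - y) * wave c m y =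
      b * ∫ x in ball (0:ℂ) s, ∫ y : ℂ, c ‖y‖ / ‖x - y‖ ^ 2 *
        Real.cos (m * (y.arg - (x - y).arg)) := by
  have hT := triple_integrable h hc hc1 hcs m hs
  have e0 : ∫ t in Ioo (-π) π, (∫ x in ball (0:ℂ) s, ∫ y : ℂ, ker W (x - y) * wave c m y) =
      (2 * π) * ∫ x in ball (0:ℂ) s, ∫ y : ℂ, ker W (x - y) * wave c m y := by
    rw [setIntegral_const, Measure.real, Real.volume_Ioo, smul_eq_mul,
      ENNReal.toReal_ofReal (by linarith [Real.pi_pos])]
    congr 1
    ring
  rw [← e0]
  have e1 : ∫ t in Ioo (-π) π, (∫ x in ball (0:ℂ) s, ∫ y : ℂ, ker W (x - y) * wave c m y) =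
      ∫ t in Ioo (-π) π, ∫ q, ker W (Complex.exp (t * Complex.I) * (q.1 - q.2)) *
        wave c m (Complex.exp (t * Complex.I) * q.2)
        ∂((volume.restrict (ball (0:ℂ) s)).prod (volume : Measure ℂ)) := by
    apply integral_congr_ae
    filter_upwards [hT.prod_right_ae] with t ht
    rw [rot_pair W (wave c m) s t]
    exact (integral_prod _ ht).symm
  rw [e1, integral_integral_swap hT, integral_prod _ hT.integral_prod_right, ← integral_const_mul]
  apply setIntegral_congr_fun measurableSet_ball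
  intro x hx
  simp only
  rw [← integral_const_mul]
  apply integral_congr_ae
  have h0 : ∀ᵐ y : ℂ, y ≠ 0 ∧ y ≠ x := by
    have h1 : ∀ᵐ y : ℂ, y ≠ 0 := by simp [ae_iff, measure_singleton]
    have h2 : ∀ᵐ y : ℂ, y ≠ x := by simp [ae_iff, measure_singleton]
    exact h1.and h2
  filter_upwards [h0] with y hy
  have hxy : x - y ≠ 0 := sub_ne_zero.2 (Ne.symm hy.2)
  have e2 : ∀ t : ℝ, ker W (Complex.exp (t * Complex.I) * (x - y)) *
      wave c m (Complex.exp (t * Complex.I) * y) =
      (c ‖y‖ / ‖x - y‖ ^ 2) * (W ((x - y).arg + t) * Real.cos (m * (y.arg + t))) := by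
    intro t
    rw [ker_rot h _ hxy, wave_rot _ _ _ hy.1]
    ring
  simp_rw [e2]
  rw [integral_const_mul, h.shift_cos m hb hsin]
  ring

end Pool.Agent.P8H66.RS
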