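import Pool.Agent.P8H66.RS.D

/-! # Rough homogeneous kernels: the elementary estimates -/

set_option autoImplicit false

open MeasureTheory Filter Topology Metric Set
open scoped Real ENNReal NNReal

namespace Pool.Agent.P8H66.RS

/-- the averaged kernel -/
noncomputable def qq (m : ℕ) (x y : ℂ) : ℝ := Real.cos (m * (1 - x / y).arg) / ‖x - y‖ ^ 2

lemma cos_eq {m : ℕ} (hm : Odd m) {x y : ℂ} (hy : y ≠ 0) (hxy : x ≠ y) :
    Real.cos (m * (y.arg - (x - y).arg)) = - Real.cos (m * (1 - x / y).arg) := by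
  have hw : (1 - x / y : ℂ) ≠ 0 := by
    intro h
    apply hxy
    field_simp at h
    rw [mul_zero] at h
    exact (sub_eq_zero.1 h).symm
  have e : x - y = -(y * (1 - x / y)) := by
    field_simp
    ring
  have h1 : (((x - y).arg : ℝ) : Real.Angle) = ((y.arg + (1 - x / y).arg + π : ℝ) : Real.Angle) := by
    rw [e, Complex.arg_neg_coe_angle (mul_ne_zero hy hw), Complex.arg_mul_coe_angle hy hw,
      Real.Angle.coe_add, Real.Angle.coe_add]
  obtain ⟨n, hn⟩ := Real.Angle.angle_eq_iff_two_pi_dvd_sub.1 h1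
  have h2 : (x - y).arg = y.arg + (1 - x / y).arg + π + n * (2 * π) := by linarith
  rw [h2]
  have h3 : (m : ℝ) * (y.arg - (y.arg + (1 - x / y).arg + π + n * (2 * π))) =
      -(m * (1 - x / y).arg + m * π) + ((-(m * n) : ℤ) : ℝ) * (2 * π) := by
    push_cast; ring
  rw [h3, Real.cos_add_int_mul_two_pi, Real.cos_neg]
  obtain ⟨k, rfl⟩ := hm
  have h4 : (((2 * k + 1 : ℕ) : ℝ)) * (1 - x / y).arg + ((2 * k + 1 : ℕ) : ℝ) * π =
      ((((2 * k + 1 : ℕ) : ℝ)) * (1 - x / y).arg + π) + ((k : ℕ) : ℝ) * (2 * π) := by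
    push_cast; ring
  rw [h4, Real.cos_add_nat_mul_two_pi, Real.cos_add_pi]

/-- bounds for the angle -/
lemma arg_bounds {x y : ℂ} (hx : ‖x‖ ≤ 1) (hy : 2 ≤ ‖y‖) :
    |(x / y).im| / 2 ≤ |(1 - x / y).arg| ∧ |(1 - x / y).arg| ≤ π * |(x / y).im| := by
  have hy0 : 0 < ‖y‖ := by linarith
  set z := x / y with hz
  have hz1 : ‖z‖ ≤ 1 / 2 := by
    rw [hz, norm_div, div_le_div_iff₀ hy0 (by norm_num)]
    linarith
  have hre : 0 < (1 - z).re := by
    rw [Complex.sub_re, Complex.one_re]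
    have := (Complex.abs_re_le_norm z)
    have := le_abs_self z.re
    linarith
  have ha : |(1 - z).arg| < π / 2 := Complex.abs_arg_lt_pi_div_two_iff.2 (Or.inl hre)
  have hn1 : 1 / 2 ≤ ‖1 - z‖ := by
    have := norm_sub_norm_le (1:ℂ) z
    rw [norm_one] at this
    linarith
  have hn2 : ‖1 - z‖ ≤ 2 := by
    have := norm_sub_le (1:ℂ) z
    rw [norm_one] at this
    linarith
  have hs : |Real.sin (1 - z).arg| = |z.im| / ‖1 - z‖ := by
    rw [Complex.sin_arg, abs_div, abs_of_nonneg (norm_nonneg (1 - z)), Complex.sub_im, Complex.one_im,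
      zero_sub, abs_neg]
  have hpos : 0 < ‖1 - z‖ := by linarith
  constructor
  · calc |z.im| / 2 ≤ |z.im| / ‖1 - z‖ :=
        div_le_div_of_nonneg_left (abs_nonneg _) hpos hn2
      _ = |Real.sin (1 - z).arg| := hs.symm
      _ ≤ _ := Real.abs_sin_le_abs
  · have h1 := Real.mul_abs_le_abs_sin ha.le
    rw [hs] at h1
    have h2 : |z.im| / ‖1 - z‖ ≤ 2 * |z.im| := by
      rw [div_le_iff₀ hpos]
      have := abs_nonneg z.im
      nlinarith
    have h3 : 2 / π * |(1 - z).arg| ≤ 2 * |z.im| := h1.trans h2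
    have hpi := Real.pi_pos
    rw [div_mul_eq_mul_div, div_le_iff₀ hpi] at h3
    linarith

/-- bounds for the norm -/
lemma norm_bounds {x y : ℂ} (hx : ‖x‖ ≤ 1) (hy : 2 ≤ ‖y‖) :
    (1 - 2 / ‖y‖) / ‖y‖ ^ 2 ≤ 1 / ‖x - y‖ ^ 2 ∧ 1 / ‖x - y‖ ^ 2 ≤ (1 + 6 / ‖y‖) / ‖y‖ ^ 2 := by
  set r := ‖y‖ with hr
  have hr0 : 0 < r := by linarith
  have h1 : ‖x - y‖ ≤ r + 1 := by
    have := norm_sub_le x y
    linarith
  have h2 : r - 1 ≤ ‖x - y‖ := by
    have := norm_sub_norm_le y x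
    rw [norm_sub_rev] at this
    linarith
  have h3 : 0 < r - 1 := by linarith
  have h4 : 0 < ‖x - y‖ := by linarith
  constructor
  · calc (1 - 2 / r) / r ^ 2 ≤ 1 / (r + 1) ^ 2 := by
          rw [div_le_div_iff₀ (by positivity) (by positivity)]
          have : (1 - 2 / r) * (r + 1) ^ 2 = r ^ 2 - 3 - 2 / r := by
            field_simp
            ring
          rw [this]
          have : 0 < 2 / r := by positivity
          linarith
      _ ≤ 1 / ‖x - y‖ ^ 2 := by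
          apply one_div_le_one_div_of_le (by positivity)
          exact pow_le_pow_left₀ h4.le h1 2
  · calc 1 / ‖x - y‖ ^ 2 ≤ 1 / (r - 1) ^ 2 := by
          apply one_div_le_one_div_of_le (by positivity)
          exact pow_le_pow_left₀ h3.le h2 2
      _ ≤ (1 + 6 / r) / r ^ 2 := by
          rw [div_le_div_iff₀ (by positivity) (by positivity)]
          have : (1 + 6 / r) * (r - 1) ^ 2 = r ^ 2 + 4 * r - 11 + 6 / r := by
            field_simp
            ring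
          rw [this]
          have h5 : 0 < 6 / r := by positivity
          by_cases h6 : 11 / 4 ≤ r
          · nlinarith
          · push Not at h6
            have h7 : 6 / r ≥ 6 / (11 / 4) := by
              apply div_le_div_of_nonneg_left (by norm_num) hr0 h6.le
            have h8 : 4 * r - 11 + 6 / r ≥ 0 := by
              have : (4 * r - 11) * r + 6 ≥ 0 := by nlinarith [sq_nonneg (r - 11/8)]
              have h9 : 4 * r - 11 + 6 / r = ((4 * r - 11) * r + 6) / r := by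
                field_simp
              rw [h9]
              positivity
            linarith

/-- the averaged kernel is large near the origin -/
lemma qq_lower {m : ℕ} {x y : ℂ} {ρ : ℝ} (hρ : ρ ≤ 1 / π) (hx : ‖x‖ ≤ ρ) (hx1 : ‖x‖ ≤ 1)
    (hy : 2 ≤ ‖y‖) (hm : (m : ℝ) ≤ ‖y‖) :
    (1 - π ^ 2 * ρ ^ 2 / 2 - 2 / ‖y‖) / ‖y‖ ^ 2 ≤ qq m x y := by
  have hy0 : 0 < ‖y‖ := by linarith
  have hpi := Real.pi_pos
  have hρ0 : 0 ≤ ρ := (norm_nonneg _).trans hx
  obtain ⟨-, h1⟩ := arg_bounds hx1 hy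
  obtain ⟨h2, -⟩ := norm_bounds hx1 hy
  have h3 : (m:ℝ) * |(1 - x / y).arg| ≤ π * ρ := by
    have h4 : |(x / y).im| ≤ ρ / ‖y‖ := by
      refine (Complex.abs_im_le_norm _).trans ?_
      rw [norm_div]
      exact div_le_div_of_nonneg_right hx hy0.le
    calc (m:ℝ) * |(1 - x / y).arg| ≤ ‖y‖ * (π * (ρ / ‖y‖)) := by
          refine mul_le_mul hm (h1.trans (mul_le_mul_of_nonneg_left h4 hpi.le)) (abs_nonneg _)
            hy0.le
      _ = π * ρ := by field_simp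
  have h5 : 1 - π ^ 2 * ρ ^ 2 / 2 ≤ Real.cos (m * (1 - x / y).arg) := by
    refine le_trans ?_ Real.one_sub_sq_div_two_le_cos
    have h6 : (m * (1 - x / y).arg) ^ 2 ≤ (π * ρ) ^ 2 := by
      rw [← sq_abs, abs_mul, Nat.abs_cast]
      exact pow_le_pow_left₀ (by positivity) h3 2
    rw [mul_pow] at h6
    linarith
  have h7 : π * ρ ≤ 1 := by
    calc π * ρ ≤ π * (1 / π) := mul_le_mul_of_nonneg_left hρ hpi.le
      _ = 1 := by field_simp
  have h8 : 0 ≤ 1 - π ^ 2 * ρ ^ 2 / 2 := by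
    have : (π * ρ) ^ 2 ≤ 1 := pow_le_one₀ (by positivity) h7
    rw [mul_pow] at this
    linarith
  unfold qq
  have h9 : (1 - π ^ 2 * ρ ^ 2 / 2) * ((1 - 2 / ‖y‖) / ‖y‖ ^ 2) ≤
      Real.cos (m * (1 - x / y).arg) / ‖x - y‖ ^ 2 := by
    rw [div_eq_mul_one_div (Real.cos _)]
    have h10 : 0 ≤ (1 - 2 / ‖y‖) / ‖y‖ ^ 2 := by
      apply div_nonneg _ (by positivity)
      rw [sub_nonneg, div_le_one hy0]
      exact hy
    exact mul_le_mul h5 h2 h10 (h8.trans h5)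
  refine le_trans ?_ h9
  rw [← mul_div_assoc]
  apply div_le_div_of_nonneg_right _ (by positivity)
  have : 0 ≤ 2 / ‖y‖ := by positivity
  have h11 : 0 ≤ π ^ 2 * ρ ^ 2 / 2 := by positivity
  nlinarith

/-- the averaged kernel is smaller away from the line through the origin and `y` -/
lemma qq_upper {m : ℕ} {x y : ℂ} (hx1 : ‖x‖ ≤ 1)
    (hy : 2 ≤ ‖y‖) (hm : (m : ℝ) ≤ ‖y‖) (hm3 : ‖y‖ ≤ 3 * m) :
    qq m x y ≤ (1 - (‖y‖ * (x / y).im) ^ 2 / (18 * π ^ 2) + 6 / ‖y‖) / ‖y‖ ^ 2 := by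
  have hy0 : 0 < ‖y‖ := by linarith
  have hpi := Real.pi_pos
  obtain ⟨h0, h1⟩ := arg_bounds hx1 hy
  obtain ⟨-, h2⟩ := norm_bounds hx1 hy
  have h4 : |(x / y).im| ≤ 1 / ‖y‖ := by
    refine (Complex.abs_im_le_norm _).trans ?_
    rw [norm_div]
    exact div_le_div_of_nonneg_right hx1 hy0.le
  have h3 : (m:ℝ) * |(1 - x / y).arg| ≤ π := by
    calc (m:ℝ) * |(1 - x / y).arg| ≤ ‖y‖ * (π * (1 / ‖y‖)) := by
          refine mul_le_mul hm (h1.trans (mul_le_mul_of_nonneg_left h4 hpi.le)) (abs_nonneg _)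
            hy0.le
      _ = π := by field_simp
  have h5 : Real.cos (m * (1 - x / y).arg) ≤ 1 - (‖y‖ * (x / y).im) ^ 2 / (18 * π ^ 2) := by
    refine (Real.cos_le_one_sub_mul_cos_sq (by rwa [abs_mul, Nat.abs_cast])).trans ?_
    have h6 : (‖y‖ / 3 * (|(x / y).im| / 2)) ^ 2 ≤ (m * (1 - x / y).arg) ^ 2 := by
      rw [← sq_abs (m * (1 - x / y).arg), abs_mul, Nat.abs_cast]
      refine pow_le_pow_left₀ (by positivity) ?_ 2
      exact mul_le_mul (by linarith) h0 (by positivity) (Nat.cast_nonneg _)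
    have h7 : (‖y‖ / 3 * (|(x / y).im| / 2)) ^ 2 = (‖y‖ * (x / y).im) ^ 2 / 36 := by
      rw [mul_pow, mul_pow, div_pow, div_pow, sq_abs]
      ring
    rw [h7] at h6
    have h8 : (‖y‖ * (x / y).im) ^ 2 / (18 * π ^ 2) ≤ 2 / π ^ 2 * (m * (1 - x / y).arg) ^ 2 := by
      calc (‖y‖ * (x / y).im) ^ 2 / (18 * π ^ 2) = 2 / π ^ 2 * ((‖y‖ * (x / y).im) ^ 2 / 36) := by
            field_simp
            ring
        _ ≤ _ := mul_le_mul_of_nonneg_left h6 (by positivity)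
    linarith
  have h9 : |‖y‖ * (x / y).im| ≤ 1 := by
    rw [abs_mul, abs_norm]
    calc ‖y‖ * |(x / y).im| ≤ ‖y‖ * (1 / ‖y‖) := mul_le_mul_of_nonneg_left h4 hy0.le
      _ = 1 := by field_simp
  have h10 : (‖y‖ * (x / y).im) ^ 2 ≤ 1 := by
    rw [← sq_abs]
    exact pow_le_one₀ (abs_nonneg _) h9
  have h11 : 0 ≤ 1 - (‖y‖ * (x / y).im) ^ 2 / (18 * π ^ 2) := by
    rw [sub_nonneg, div_le_one (by positivity)]
    nlinarith [Real.pi_gt_three]
  have h12 : 0 ≤ (‖y‖ * (x / y).im) ^ 2 / (18 * π ^ 2) := by positivity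
  unfold qq
  calc Real.cos (m * (1 - x / y).arg) / ‖x - y‖ ^ 2
      ≤ (1 - (‖y‖ * (x / y).im) ^ 2 / (18 * π ^ 2)) / ‖x - y‖ ^ 2 :=
        div_le_div_of_nonneg_right h5 (by positivity)
    _ = (1 - (‖y‖ * (x / y).im) ^ 2 / (18 * π ^ 2)) * (1 / ‖x - y‖ ^ 2) := by ring
    _ ≤ (1 - (‖y‖ * (x / y).im) ^ 2 / (18 * π ^ 2)) * ((1 + 6 / ‖y‖) / ‖y‖ ^ 2) :=
        mul_le_mul_of_nonneg_left h2 h11
    _ = ((1 - (‖y‖ * (x / y).im) ^ 2 / (18 * π ^ 2)) * (1 + 6 / ‖y‖)) / ‖y‖ ^ 2 := by ring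
    _ ≤ _ := by
        apply div_le_div_of_nonneg_right _ (by positivity)
        have : 0 ≤ 6 / ‖y‖ := by positivity
        nlinarith

end Pool.Agent.P8H66.RS
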