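import Pool.Agent.P8H66.RS.E

/-! # Rough homogeneous kernels: the averaged kernel has different means over two discs -/

set_option autoImplicit false

open MeasureTheory Filter Topology Metric Set
open scoped Real ENNReal NNReal

namespace Pool.Agent.P8H66.RS

/-- the second moment -/
noncomputable def V2 : ℝ := ⨍ x in ball (0:ℂ) 1, x.im ^ 2

lemma vol_pos {s : ℝ} (hs : 0 < s) : 0 < volume.real (ball (0:ℂ) s) := by
  rw [Measure.real]
  exact ENNReal.toReal_pos (measure_ball_pos _ _ hs).ne' measure_ball_lt_top.ne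

lemma im_sq_integrable : IntegrableOn (fun x : ℂ => x.im ^ 2) (ball (0:ℂ) 1) := by
  have h : ContinuousOn (fun x : ℂ => x.im ^ 2) (closedBall (0:ℂ) 1) := by fun_prop
  exact (h.integrableOn_compact (isCompact_closedBall _ _)).mono_set ball_subset_closedBall

lemma V2_pos : 0 < V2 := by
  unfold V2
  rw [setAverage_eq, smul_eq_mul]
  refine mul_pos (inv_pos.2 (vol_pos one_pos)) ?_
  have hsub : ball (Complex.I / 2 : ℂ) (1 / 4) ⊆ ball (0:ℂ) 1 := by
    apply ball_subset_ball'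
    rw [dist_zero_right, norm_div, Complex.norm_I, Complex.norm_ofNat]
    norm_num
  calc 0 < (1 / 4) ^ 2 * volume.real (ball (Complex.I / 2 : ℂ) (1 / 4)) := by
        refine mul_pos (by norm_num) ?_
        rw [Measure.real]
        exact ENNReal.toReal_pos (measure_ball_pos _ _ (by norm_num)).ne' measure_ball_lt_top.ne
    _ = ∫ x in ball (Complex.I / 2 : ℂ) (1 / 4), (1 / 4 : ℝ) ^ 2 := by
        rw [setIntegral_const, smul_eq_mul, mul_comm]
    _ ≤ ∫ x in ball (Complex.I / 2 : ℂ) (1 / 4), x.im ^ 2 := by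
        refine setIntegral_mono_on (integrableOn_const measure_ball_lt_top.ne)
          (im_sq_integrable.mono_set hsub) measurableSet_ball fun x hx => ?_
        refine pow_le_pow_left₀ (by norm_num) ?_ 2
        rw [mem_ball, dist_eq_norm] at hx
        have h1 := (Complex.abs_im_le_norm (x - Complex.I / 2)).trans hx.le
        have h2 : (x - Complex.I / 2).im = x.im - 1 / 2 := by
          simp [Complex.sub_im]
        rw [h2, abs_le] at h1
        linarith [h1.1]
    _ ≤ ∫ x in ball (0:ℂ) 1, x.im ^ 2 :=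
        setIntegral_mono_set im_sq_integrable (ae_of_all _ fun x => sq_nonneg _)
          hsub.eventuallyLE

/-- the second moment in the direction orthogonal to `y` -/
lemma V2_rot {y : ℂ} (hy : y ≠ 0) :
    ∫ x in ball (0:ℂ) 1, (‖y‖ * (x / y).im) ^ 2 = ∫ x in ball (0:ℂ) 1, x.im ^ 2 := by
  have h1 := (rotation (Circle.exp y.arg)).measurePreserving.setIntegral_preimage_emb
    (rotation_emb y.arg) (fun x => (‖y‖ * (x / y).im) ^ 2) (ball (0:ℂ) 1)
  have h2 : (rotation (Circle.exp y.arg)) ⁻¹' (ball (0:ℂ) 1) = ball 0 1 := by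
    ext z
    rw [mem_preimage, mem_ball_zero_iff, mem_ball_zero_iff, LinearIsometryEquiv.norm_map]
  rw [h2] at h1
  rw [← h1]
  congr 1
  funext x
  rw [rotation_eq]
  have hn : (‖y‖ : ℂ) ≠ 0 := by
    rw [Ne, Complex.ofReal_eq_zero, norm_eq_zero]; exact hy
  have h3 : Complex.exp (y.arg * Complex.I) * x / y = x / ‖y‖ := by
    conv_lhs => rw [← Complex.norm_mul_exp_arg_mul_I y]
    rw [Complex.norm_mul_exp_arg_mul_I]
    have he := Complex.exp_ne_zero (y.arg * Complex.I)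
    rw [show Complex.exp (y.arg * Complex.I) * x / y =
      Complex.exp (y.arg * Complex.I) * x / (‖y‖ * Complex.exp (y.arg * Complex.I)) by
        rw [Complex.norm_mul_exp_arg_mul_I]]
    field_simp
  rw [h3, Complex.div_ofReal_im]
  have hn' : ‖y‖ ≠ 0 := norm_ne_zero_iff.2 hy
  field_simp

lemma qq_meas (m : ℕ) : Measurable fun p : ℂ × ℂ => qq m p.1 p.2 := by
  unfold qq
  refine Measurable.div ?_ ?_
  · exact Real.measurable_cos.comp (measurable_const.mul (Complex.measurable_arg.comp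
      (measurable_const.sub (measurable_fst.div measurable_snd))))
  · exact ((measurable_fst.sub measurable_snd).norm).pow_const 2

lemma qq_abs {m : ℕ} {x y : ℂ} (hx : ‖x‖ ≤ 1) (hy : 2 ≤ ‖y‖) : |qq m x y| ≤ 1 := by
  unfold qq
  rw [abs_div, abs_of_nonneg (sq_nonneg ‖x - y‖)]
  have h2 : 1 ≤ ‖x - y‖ := by
    have := norm_sub_norm_le y x
    rw [norm_sub_rev] at this
    linarith
  rw [div_le_one (by positivity)]
  exact (Real.abs_cos_le_one _).trans (one_le_pow₀ h2)

lemma qq_integrable (m : ℕ) {y : ℂ} (hy : 2 ≤ ‖y‖) {s : ℝ} (hs : s ≤ 1) :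
    IntegrableOn (fun x => qq m x y) (ball (0:ℂ) s) := by
  refine Integrable.mono' (integrableOn_const (C := (1:ℝ)) measure_ball_lt_top.ne)
    ((qq_meas m).comp (measurable_id.prodMk measurable_const)).aestronglyMeasurable ?_
  rw [ae_restrict_iff' measurableSet_ball]
  refine ae_of_all _ fun x hx => ?_
  rw [mem_ball_zero_iff] at hx
  exact qq_abs (by linarith) hy

/-- The difference of the means. -/
lemma mean_diff {m : ℕ} {y : ℂ} {ρ : ℝ} (hρ0 : 0 < ρ) (hρ1 : ρ ≤ 1 / π)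
    (hρ2 : π ^ 2 * ρ ^ 2 / 2 ≤ V2 / (72 * π ^ 2)) (hy : 2 ≤ ‖y‖)
    (hy2 : 8 / ‖y‖ ≤ V2 / (72 * π ^ 2)) (hm : (m : ℝ) ≤ ‖y‖) (hm3 : ‖y‖ ≤ 3 * m) :
    V2 / (36 * π ^ 2) / ‖y‖ ^ 2 ≤
      (⨍ x in ball (0:ℂ) ρ, qq m x y) - ⨍ x in ball (0:ℂ) 1, qq m x y := by
  have hpi := Real.pi_pos
  have hρ3 : ρ ≤ 1 := by
    refine hρ1.trans ?_
    rw [div_le_one hpi]
    linarith [Real.pi_gt_three]
  have hy0 : 0 < ‖y‖ := by linarith
  have hyne : y ≠ 0 := norm_pos_iff.1 hy0
  -- first mean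
  have h1 : (1 - π ^ 2 * ρ ^ 2 / 2 - 2 / ‖y‖) / ‖y‖ ^ 2 ≤ ⨍ x in ball (0:ℂ) ρ, qq m x y := by
    rw [setAverage_eq, smul_eq_mul, ← div_eq_inv_mul, le_div_iff₀ (vol_pos hρ0)]
    calc (1 - π ^ 2 * ρ ^ 2 / 2 - 2 / ‖y‖) / ‖y‖ ^ 2 * volume.real (ball (0:ℂ) ρ) =
          ∫ x in ball (0:ℂ) ρ, (1 - π ^ 2 * ρ ^ 2 / 2 - 2 / ‖y‖) / ‖y‖ ^ 2 := by
          rw [setIntegral_const, smul_eq_mul, mul_comm]
      _ ≤ _ := by
          refine setIntegral_mono_on (integrableOn_const measure_ball_lt_top.ne)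
            (qq_integrable m hy hρ3) measurableSet_ball fun x hx => ?_
          rw [mem_ball_zero_iff] at hx
          exact qq_lower hρ1 hx.le (by linarith) hy hm
  -- second mean
  have h2 : (⨍ x in ball (0:ℂ) 1, qq m x y) ≤
      (1 - V2 / (18 * π ^ 2) + 6 / ‖y‖) / ‖y‖ ^ 2 := by
    rw [setAverage_eq, smul_eq_mul, ← div_eq_inv_mul, div_le_iff₀ (vol_pos one_pos)]
    have hi : IntegrableOn (fun x : ℂ => (‖y‖ * (x / y).im) ^ 2) (ball (0:ℂ) 1) := by
      have h : ContinuousOn (fun x : ℂ => (‖y‖ * (x / y).im) ^ 2) (closedBall (0:ℂ) 1) := by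
        have : Continuous (fun x : ℂ => (‖y‖ * (x / y).im) ^ 2) := by
          have h3 : Continuous fun x : ℂ => x / y := continuous_id.div_const y
          exact (continuous_const.mul (Complex.continuous_im.comp h3)).pow 2
        exact this.continuousOn
      exact (h.integrableOn_compact (isCompact_closedBall _ _)).mono_set ball_subset_closedBall
    have hV : V2 * volume.real (ball (0:ℂ) 1) = ∫ x in ball (0:ℂ) 1, (‖y‖ * (x / y).im) ^ 2 := by
      rw [V2_rot hyne]
      unfold V2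
      rw [setAverage_eq, smul_eq_mul]
      have := (vol_pos one_pos).ne'
      field_simp
    calc ∫ x in ball (0:ℂ) 1, qq m x y ≤ ∫ x in ball (0:ℂ) 1,
          ((1 + 6 / ‖y‖) / ‖y‖ ^ 2 - (18 * π ^ 2 * ‖y‖ ^ 2)⁻¹ * (‖y‖ * (x / y).im) ^ 2) := by
          refine setIntegral_mono_on (qq_integrable m hy le_rfl)
            ((integrableOn_const measure_ball_lt_top.ne).sub (hi.const_mul _))
            measurableSet_ball fun x hx => ?_
          rw [mem_ball_zero_iff] at hx
          refine (qq_upper hx.le hy hm hm3).trans (le_of_eq ?_)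
          field_simp
          ring
      _ = (1 + 6 / ‖y‖) / ‖y‖ ^ 2 * volume.real (ball (0:ℂ) 1) -
          (18 * π ^ 2 * ‖y‖ ^ 2)⁻¹ * (V2 * volume.real (ball (0:ℂ) 1)) := by
          have hcc : Integrable (fun _ : ℂ => (1 + 6 / ‖y‖) / ‖y‖ ^ 2)
            (volume.restrict (ball (0:ℂ) 1)) := integrableOn_const measure_ball_lt_top.ne
          rw [integral_sub hcc (hi.const_mul _),
            setIntegral_const, integral_const_mul, hV, smul_eq_mul]
          ring
      _ = _ := by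
          field_simp
          ring
  have h3 : V2 / (36 * π ^ 2) / ‖y‖ ^ 2 ≤ (1 - π ^ 2 * ρ ^ 2 / 2 - 2 / ‖y‖) / ‖y‖ ^ 2 -
      (1 - V2 / (18 * π ^ 2) + 6 / ‖y‖) / ‖y‖ ^ 2 := by
    rw [← sub_div]
    apply div_le_div_of_nonneg_right _ (by positivity)
    have e1 : V2 / (18 * π ^ 2) = 4 * (V2 / (72 * π ^ 2)) := by
      field_simp; ring
    have e2 : V2 / (36 * π ^ 2) = 2 * (V2 / (72 * π ^ 2)) := by
      field_simp; ring
    have e3 : 8 / ‖y‖ = 2 / ‖y‖ + 6 / ‖y‖ := by ring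
    rw [e1, e2]
    linarith
  linarith

end Pool.Agent.P8H66.RS
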