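import Pool.Agent.P8H66.RS.F

/-! # Rough homogeneous kernels: the action on one wave -/

set_option autoImplicit false

open MeasureTheory Filter Topology Metric Set
open scoped Real ENNReal NNReal

namespace Pool.Agent.P8H66.RS

lemma prod_integrable {c : ℝ → ℝ} (hc : Measurable c)
    (hc1 : ∀ r, |c r| ≤ 1) {M : ℝ} (hcs : ∀ r, r < 2 ∨ M < r → c r = 0) (m : ℕ) {s : ℝ}
    (hs : s ≤ 1) :
    Integrable (fun p : ℂ × ℂ => c ‖p.2‖ * qq m p.1 p.2)
      ((volume.restrict (ball (0:ℂ) s)).prod volume) := by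
  have hI : Integrable (fun p : ℂ × ℂ => (fun _ : ℂ => (1:ℝ)) p.1 *
      (shell M).indicator (fun _ => (1:ℝ)) p.2)
      ((volume.restrict (ball (0:ℂ) s)).prod volume) := by
    refine Integrable.mul_prod (f := fun _ : ℂ => (1:ℝ))
        (g := (shell M).indicator (fun _ => (1:ℝ))) ?_ ?_
    · exact integrableOn_const (measure_ball_lt_top.ne)
    · rw [integrable_indicator_iff (shell_meas M)]
      exact integrableOn_const (shell_fin M).ne
  refine hI.mono' ?_ ?_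
  · exact ((hc.comp (measurable_snd.norm)).mul (qq_meas m)).aestronglyMeasurable
  · have h2 : ∀ᵐ q ∂((volume.restrict (ball (0:ℂ) s)).prod (volume : Measure ℂ)),
          q.1 ∈ ball (0:ℂ) s :=
        Measure.quasiMeasurePreserving_fst.ae (ae_restrict_mem measurableSet_ball)
    filter_upwards [h2] with p hp
    rw [mem_ball_zero_iff] at hp
    by_cases hy : p.2 ∈ shell M
    · rw [indicator_of_mem hy, mul_one, norm_mul]
      exact mul_le_one₀ (hc1 _) (norm_nonneg _) (qq_abs (by linarith) hy.1)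
    · rw [indicator_of_notMem hy, mul_zero, hcs, zero_mul, norm_zero]
      by_contra hcon
      push Not at hcon
      exact hy ⟨hcon.1, hcon.2⟩

lemma average2 {W : ℝ → ℝ} (h : Adm W) {c : ℝ → ℝ} (hc : Measurable c)
    (hc1 : ∀ r, |c r| ≤ 1) {M : ℝ} (hcs : ∀ r, r < 2 ∨ M < r → c r = 0) {m : ℕ} (hm : Odd m)
    {s : ℝ} (hs : s ≤ 1) {b : ℝ}
    (hb : ∫ t in Ioo (-π) π, W t * Real.cos (m * t) = b)
    (hsin : ∫ t in Ioo (-π) π, W t * Real.sin (m * t) = 0) :
    (2 * π) * ⨍ x in ball (0:ℂ) s, ∫ y : ℂ, ker W (x - y) * wave c m y =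
      - b * ∫ y : ℂ, c ‖y‖ * ⨍ x in ball (0:ℂ) s, qq m x y := by
  have h1 := average h hc hc1 hcs m hs hb hsin
  have h2 : ∫ x in ball (0:ℂ) s, ∫ y : ℂ, c ‖y‖ / ‖x - y‖ ^ 2 *
        Real.cos (m * (y.arg - (x - y).arg)) =
      - ∫ x in ball (0:ℂ) s, ∫ y : ℂ, c ‖y‖ * qq m x y := by
    rw [← integral_neg]
    congr 1
    funext x
    rw [← integral_neg]
    apply integral_congr_ae
    have h0 : ∀ᵐ y : ℂ, y ≠ 0 ∧ y ≠ x := by
      have h1 : ∀ᵐ y : ℂ, y ≠ 0 := by simp [ae_iff, measure_singleton]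
      have h2 : ∀ᵐ y : ℂ, y ≠ x := by simp [ae_iff, measure_singleton]
      exact h1.and h2
    filter_upwards [h0] with y hy
    rw [cos_eq hm hy.1 (Ne.symm hy.2)]
    unfold qq
    ring
  have h3 : ∫ x in ball (0:ℂ) s, ∫ y : ℂ, c ‖y‖ * qq m x y =
      ∫ y : ℂ, c ‖y‖ * ∫ x in ball (0:ℂ) s, qq m x y := by
    rw [integral_integral_swap (prod_integrable hc hc1 hcs m hs)]
    congr 1
    funext y
    rw [integral_const_mul]
  rw [h2, h3] at h1
  rw [setAverage_eq, smul_eq_mul]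
  have h4 : ∫ y : ℂ, c ‖y‖ * ⨍ x in ball (0:ℂ) s, qq m x y =
      (volume.real (ball (0:ℂ) s))⁻¹ * ∫ y : ℂ, c ‖y‖ * ∫ x in ball (0:ℂ) s, qq m x y := by
    rw [← integral_const_mul]
    congr 1
    funext y
    rw [setAverage_eq, smul_eq_mul]
    ring
  rw [h4]
  calc 2 * π * ((volume.real (ball (0:ℂ) s))⁻¹ *
        ∫ x in ball (0:ℂ) s, ∫ y : ℂ, ker W (x - y) * wave c m y)
      = (volume.real (ball (0:ℂ) s))⁻¹ * (2 * π *
        ∫ x in ball (0:ℂ) s, ∫ y : ℂ, ker W (x - y) * wave c m y) := by ring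
    _ = _ := by rw [h1]; ring

lemma avg_integrable {c : ℝ → ℝ} (hc : Measurable c)
    (hc1 : ∀ r, |c r| ≤ 1) {M : ℝ} (hcs : ∀ r, r < 2 ∨ M < r → c r = 0) (m : ℕ) {s : ℝ}
    (hs : s ≤ 1) :
    Integrable fun y : ℂ => c ‖y‖ * ⨍ x in ball (0:ℂ) s, qq m x y := by
  have h1 := (prod_integrable hc hc1 hcs m hs).integral_prod_right
  have h2 : (fun y : ℂ => c ‖y‖ * ⨍ x in ball (0:ℂ) s, qq m x y) = fun y : ℂ =>
      (volume.real (ball (0:ℂ) s))⁻¹ * ∫ x in ball (0:ℂ) s, c ‖y‖ * qq m x y := by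
    funext y
    rw [setAverage_eq, smul_eq_mul, integral_const_mul]
    ring
  rw [h2]
  exact h1.const_mul _

/-- the action on one wave -/
lemma one_wave {W : ℝ → ℝ} (h : Adm W) {m : ℕ} (hm : Odd m) {b : ℝ} (hb0 : 0 ≤ b)
    (hb : ∫ t in Ioo (-π) π, W t * Real.cos (m * t) = b)
    (hsin : ∫ t in Ioo (-π) π, W t * Real.sin (m * t) = 0)
    {c : ℝ → ℝ} (hc : Measurable c) (hc0 : ∀ r, 0 ≤ c r) (hc1 : ∀ r, c r ≤ 1)
    (hcs : ∀ r : ℝ, r < m ∨ 3 * (m:ℝ) < r → c r = 0)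
    (hct : ∀ r : ℝ, 3 / 2 * (m:ℝ) ≤ r → r ≤ 5 / 2 * (m:ℝ) → c r = 1)
    {ρ : ℝ} (hρ0 : 0 < ρ) (hρ1 : ρ ≤ 1 / π)
    (hρ2 : π ^ 2 * ρ ^ 2 / 2 ≤ V2 / (72 * π ^ 2)) (hm2 : (2:ℝ) ≤ m)
    (hm8 : 8 / (m:ℝ) ≤ V2 / (72 * π ^ 2)) :
    b * (V2 / (36 * π ^ 2) * (2 / 9)) ≤
      (⨍ x in ball (0:ℂ) 1, ∫ y : ℂ, ker W (x - y) * wave c m y) -
      ⨍ x in ball (0:ℂ) ρ, ∫ y : ℂ, ker W (x - y) * wave c m y := by
  have hpi := Real.pi_pos
  have hm0 : (0:ℝ) < m := by linarith
  have hρ3 : ρ ≤ 1 := by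
    refine hρ1.trans ?_
    rw [div_le_one hpi]
    linarith [Real.pi_gt_three]
  have hc1' : ∀ r, |c r| ≤ 1 := fun r => by rw [abs_of_nonneg (hc0 r)]; exact hc1 r
  have hcs' : ∀ r, r < 2 ∨ 3 * (m:ℝ) < r → c r = 0 := by
    intro r hr
    rcases hr with hr | hr
    · exact hcs r (Or.inl (by linarith))
    · exact hcs r (Or.inr hr)
  have e1 := average2 h hc hc1' hcs' hm (s := 1) le_rfl hb hsin
  have e2 := average2 h hc hc1' hcs' hm hρ3 hb hsin
  have i1 := avg_integrable hc hc1' hcs' m (s := 1) le_rfl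
  have i2 := avg_integrable hc hc1' hcs' m hρ3
  -- the annulus
  set A : Set ℂ := ball (0:ℂ) (5 / 2 * m) \ ball (0:ℂ) (3 / 2 * m) with hA
  have hAm : MeasurableSet A := measurableSet_ball.diff measurableSet_ball
  have hAv : volume.real A = 4 * π * m ^ 2 := by
    rw [hA, measureReal_sdiff (ball_subset_ball (by linarith)) measurableSet_ball]
    rw [Measure.real, Measure.real, Complex.volume_ball, Complex.volume_ball]
    simp only [ENNReal.toReal_mul, ENNReal.toReal_pow, ENNReal.coe_toReal, NNReal.coe_real_pi]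
    rw [ENNReal.toReal_ofReal (by positivity), ENNReal.toReal_ofReal (by positivity)]
    ring
  have hAf : volume A ≠ ∞ := (lt_of_le_of_lt (measure_mono sdiff_subset) measure_ball_lt_top).ne
  have key : V2 / (36 * π ^ 2) * (4 * π / 9) ≤
      ∫ y : ℂ, (c ‖y‖ * (⨍ x in ball (0:ℂ) ρ, qq m x y) -
        c ‖y‖ * ⨍ x in ball (0:ℂ) 1, qq m x y) := by
    calc V2 / (36 * π ^ 2) * (4 * π / 9) =
          ∫ y in A, V2 / (36 * π ^ 2) / (3 * m) ^ 2 := by
          rw [setIntegral_const, smul_eq_mul, hAv]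
          field_simp
          ring
      _ = ∫ y, A.indicator (fun _ => V2 / (36 * π ^ 2) / (3 * m) ^ 2) y :=
          (integral_indicator hAm).symm
      _ ≤ _ := by
          refine integral_mono ((integrable_indicator_iff hAm).2 (integrableOn_const hAf))
            (i2.sub i1) fun y => ?_
          show A.indicator (fun _ => V2 / (36 * π ^ 2) / (3 * m) ^ 2) y ≤
            c ‖y‖ * (⨍ x in ball (0:ℂ) ρ, qq m x y) - c ‖y‖ * ⨍ x in ball (0:ℂ) 1, qq m x y
          rw [← mul_sub]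
          by_cases hy : ‖y‖ < m ∨ 3 * (m:ℝ) < ‖y‖
          · rw [hcs _ hy, zero_mul, indicator_of_notMem]
            intro hyA
            rw [hA, Set.mem_sdiff, mem_ball_zero_iff, mem_ball_zero_iff, not_lt] at hyA
            rcases hy with hy | hy <;> linarith [hyA.1, hyA.2]
          · push Not at hy
            have hd := mean_diff (m := m) (y := y) hρ0 hρ1 hρ2 (by linarith [hy.1])
              (le_trans (div_le_div_of_nonneg_left (by norm_num) hm0 hy.1) hm8) hy.1 hy.2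
            have hd0 : 0 ≤ V2 / (36 * π ^ 2) / ‖y‖ ^ 2 :=
              div_nonneg (div_nonneg V2_pos.le (by positivity)) (by positivity)
            by_cases hyA : y ∈ A
            · rw [indicator_of_mem hyA]
              rw [hA, Set.mem_sdiff, mem_ball_zero_iff, mem_ball_zero_iff, not_lt] at hyA
              rw [hct _ hyA.2 hyA.1.le, one_mul]
              refine le_trans ?_ hd
              have hy0 : 0 < ‖y‖ := by linarith [hy.1]
              refine div_le_div_of_nonneg_left (div_nonneg V2_pos.le (by positivity))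
                (by positivity) (pow_le_pow_left₀ hy0.le hy.2 2)
            · rw [indicator_of_notMem hyA]
              exact mul_nonneg (hc0 _) (hd0.trans hd)
  rw [integral_sub i2 i1] at key
  have e3 : (2 * π) * ((⨍ x in ball (0:ℂ) 1, ∫ y : ℂ, ker W (x - y) * wave c m y) -
      ⨍ x in ball (0:ℂ) ρ, ∫ y : ℂ, ker W (x - y) * wave c m y) =
      b * ((∫ y : ℂ, c ‖y‖ * ⨍ x in ball (0:ℂ) ρ, qq m x y) -
        ∫ y : ℂ, c ‖y‖ * ⨍ x in ball (0:ℂ) 1, qq m x y) := by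
    rw [mul_sub, e1, e2]
    ring
  have h4 := mul_le_mul_of_nonneg_left key hb0
  rw [← e3] at h4
  have h5 : 2 * π * (b * (V2 / (36 * π ^ 2) * (2 / 9))) = b * (V2 / (36 * π ^ 2) * (4 * π / 9)) := by
    ring
  rw [← h5] at h4
  exact le_of_mul_le_mul_left h4 (by positivity)

end Pool.Agent.P8H66.RS
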