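import Pool.Agent.P8H66.RS.C

/-! # A square integrable angular part with large lacunary coefficients -/

set_option autoImplicit false

open MeasureTheory Filter Topology Metric Set
open scoped Real ENNReal NNReal

namespace Pool.Agent.P8H66.RS

instance : Fact (0 < 2 * π) := ⟨Real.two_pi_pos⟩

lemma pow3_inj : Function.Injective (fun j : ℕ => (3:ℤ) ^ j) :=
  pow_right_injective₀ (by norm_num) (by norm_num)

/-- the coefficients -/
noncomputable def co : ℤ → ℂ :=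
  Function.extend (fun j : ℕ => (3:ℤ) ^ j) (fun j => ((1 / ((j:ℝ) + 1) : ℝ) : ℂ)) 0

lemma co_pow (j : ℕ) : co ((3:ℤ) ^ j) = ((1 / ((j:ℝ) + 1) : ℝ) : ℂ) :=
  pow3_inj.extend_apply _ _ j

lemma co_neg (j : ℕ) : co (-(3:ℤ) ^ j) = 0 := by
  unfold co
  rw [Function.extend_apply' _ _ _ ?_]
  · rfl
  · rintro ⟨k, hk⟩
    have h1 : (0:ℤ) < 3 ^ k := by positivity
    have h2 : (0:ℤ) < 3 ^ j := by positivity
    linarith

lemma co_mem : Memℓp co 2 := by
  apply memℓp_gen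
  rw [← pow3_inj.summable_iff]
  · have h1 : ((fun i : ℤ => ‖co i‖ ^ (2:ℝ≥0∞).toReal) ∘ fun j : ℕ => (3:ℤ) ^ j) =
        fun j : ℕ => 1 / ((j:ℝ) + 1) ^ 2 := by
      funext j
      simp only [Function.comp_apply, co_pow, ENNReal.toReal_ofNat]
      rw [Complex.norm_real, Real.norm_of_nonneg (by positivity)]
      norm_num
    rw [h1]
    have h2 := (summable_nat_add_iff (f := fun n : ℕ => 1 / (n:ℝ) ^ 2) 1).2
      (Real.summable_one_div_nat_pow.2 (by norm_num))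
    simpa using h2
  · intro n hn
    have : co n = 0 := by
      unfold co
      rw [Function.extend_apply' _ _ _ (by simpa using hn)]
      rfl
    rw [this]
    simp

/-- the `L²` function -/
noncomputable def FF : Lp ℂ 2 (@AddCircle.haarAddCircle (2 * π) _) :=
  (fourierBasis (T := 2 * π)).repr.symm ⟨co, co_mem⟩

lemma FF_coeff (n : ℤ) : fourierCoeff (FF : AddCircle (2 * π) → ℂ) n = co n := by
  rw [← fourierBasis_repr]
  unfold FF
  rw [LinearIsometryEquiv.apply_symm_apply]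

/-- the function on the line -/
noncomputable def Fc (t : ℝ) : ℂ := (FF : AddCircle (2 * π) → ℂ) (t : AddCircle (2 * π))

lemma Fc_meas : Measurable Fc :=
  (Lp.stronglyMeasurable FF).measurable.comp (AddCircle.measurable_mk' )

lemma Fc_per (t : ℝ) : Fc (t + 2 * π) = Fc t := by
  unfold Fc
  rw [AddCircle.coe_add_period]

lemma Fc_sq (s : ℝ) : ∫⁻ t in Ioc (-π) (-π + 2 * π), ‖Fc (t + s)‖ₑ ^ 2 < ∞ := by
  have h1 := (AddCircle.lintegral_preimage (2 * π) (-π)
    (fun b : AddCircle (2 * π) => ‖(FF : AddCircle (2 * π) → ℂ) (b + (s : AddCircle (2 * π)))‖ₑ ^ 2))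
  have h2 : ∫⁻ t in Ioc (-π) (-π + 2 * π), ‖Fc (t + s)‖ₑ ^ 2 =
      ∫⁻ b : AddCircle (2 * π), ‖(FF : AddCircle (2 * π) → ℂ) (b + (s : AddCircle (2 * π)))‖ₑ ^ 2 := by
    rw [← h1]
    rfl
  rw [h2, lintegral_add_right_eq_self (fun b : AddCircle (2 * π) =>
    ‖(FF : AddCircle (2 * π) → ℂ) b‖ₑ ^ 2) (s : AddCircle (2 * π)),
    AddCircle.volume_eq_smul_haarAddCircle, lintegral_smul_measure]
  refine ENNReal.mul_lt_top ENNReal.ofReal_lt_top ?_
  have h3 := (Lp.memLp FF).2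
  rw [eLpNorm_lt_top_iff_lintegral_rpow_enorm_lt_top (by norm_num) (by norm_num)] at h3
  simpa using h3

/-- the angular part -/
noncomputable def WW (t : ℝ) : ℝ := ((Fc t).re - (Fc (t + π)).re) / 2

lemma WW_adm : Adm WW := by
  refine ⟨?_, ?_, ?_, ?_⟩
  · unfold WW
    exact ((Complex.measurable_re.comp Fc_meas).sub (Complex.measurable_re.comp
      (Fc_meas.comp (measurable_id.add_const π)))).div_const 2
  · intro t
    unfold WW
    rw [Fc_per, show t + 2 * π + π = t + π + 2 * π by ring, Fc_per]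
  · intro t
    unfold WW
    rw [show t + π + π = t + 2 * π by ring, Fc_per]
    ring
  · have h1 : ∀ t, ‖WW t‖ₑ ^ 2 ≤ ‖Fc (t + 0)‖ₑ ^ 2 + ‖Fc (t + π)‖ₑ ^ 2 := by
      intro t
      rw [add_zero]
      have h2 : ‖WW t‖ ^ 2 ≤ ‖Fc t‖ ^ 2 + ‖Fc (t + π)‖ ^ 2 := by
        unfold WW
        rw [Real.norm_eq_abs, sq_abs]
        have e1 : (Fc t).re ^ 2 ≤ ‖Fc t‖ ^ 2 := by
          rw [← sq_abs]
          exact pow_le_pow_left₀ (abs_nonneg _) (Complex.abs_re_le_norm _) 2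
        have e2 : (Fc (t + π)).re ^ 2 ≤ ‖Fc (t + π)‖ ^ 2 := by
          rw [← sq_abs]
          exact pow_le_pow_left₀ (abs_nonneg _) (Complex.abs_re_le_norm _) 2
        nlinarith [sq_nonneg ((Fc t).re + (Fc (t + π)).re), sq_nonneg ‖Fc t‖,
          sq_nonneg ‖Fc (t + π)‖]
      have h3 := ENNReal.ofReal_le_ofReal h2
      rw [ENNReal.ofReal_add (by positivity) (by positivity),
        ENNReal.ofReal_pow (norm_nonneg _), ENNReal.ofReal_pow (norm_nonneg _),
        ENNReal.ofReal_pow (norm_nonneg _), ofReal_norm, ofReal_norm, ofReal_norm] at h3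
      exact h3
    have h4 : Ioo (-π) π ⊆ Ioc (-π) (-π + 2 * π) := by
      intro t ht
      exact ⟨ht.1, by linarith [ht.2]⟩
    calc ∫⁻ t in Ioo (-π) π, ‖WW t‖ₑ ^ 2
        ≤ ∫⁻ t in Ioc (-π) (-π + 2 * π), ‖WW t‖ₑ ^ 2 := lintegral_mono_set h4
      _ ≤ ∫⁻ t in Ioc (-π) (-π + 2 * π), (‖Fc (t + 0)‖ₑ ^ 2 + ‖Fc (t + π)‖ₑ ^ 2) :=
          lintegral_mono h1
      _ = (∫⁻ t in Ioc (-π) (-π + 2 * π), ‖Fc (t + 0)‖ₑ ^ 2) +
          ∫⁻ t in Ioc (-π) (-π + 2 * π), ‖Fc (t + π)‖ₑ ^ 2 := by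
          rw [lintegral_add_left]
          exact ((Fc_meas.comp (measurable_id.add_const 0)).enorm.pow_const 2)
      _ < ∞ := ENNReal.add_lt_top.2 ⟨Fc_sq 0, Fc_sq π⟩

lemma Fc_int : IntervalIntegrable Fc volume (-π) (-π + 2 * π) := by
  rw [intervalIntegrable_iff_integrableOn_Ioc_of_le (by linarith [Real.pi_pos])]
  refine ⟨Fc_meas.aestronglyMeasurable, ?_⟩
  show ∫⁻ t in Ioc (-π) (-π + 2 * π), ‖Fc t‖ₑ < ∞
  have h1 : ∀ t, ‖Fc t‖ₑ ≤ 1 + ‖Fc (t + 0)‖ₑ ^ 2 := by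
    intro t
    rw [add_zero]
    rcases le_total ‖Fc t‖ₑ 1 with h | h
    · exact h.trans le_self_add
    · calc ‖Fc t‖ₑ = ‖Fc t‖ₑ * 1 := (mul_one _).symm
        _ ≤ ‖Fc t‖ₑ * ‖Fc t‖ₑ := mul_le_mul_right h _
        _ = ‖Fc t‖ₑ ^ 2 := (sq _).symm
        _ ≤ _ := le_add_self
  calc ∫⁻ t in Ioc (-π) (-π + 2 * π), ‖Fc t‖ₑ
      ≤ ∫⁻ t in Ioc (-π) (-π + 2 * π), (1 + ‖Fc (t + 0)‖ₑ ^ 2) := lintegral_mono h1
    _ = (∫⁻ t in Ioc (-π) (-π + 2 * π), 1) +
        ∫⁻ t in Ioc (-π) (-π + 2 * π), ‖Fc (t + 0)‖ₑ ^ 2 := by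
        rw [lintegral_add_left measurable_const]
    _ < ∞ := by
        refine ENNReal.add_lt_top.2 ⟨?_, Fc_sq 0⟩
        simp only [lintegral_const, one_mul, Measure.restrict_apply_univ, Real.volume_Ioc]
        exact ENNReal.ofReal_lt_top

lemma Fc_coeff (n : ℤ) : ∫ t in (-π)..(-π + 2 * π), Complex.exp (-(n * t * Complex.I)) * Fc t =
    2 * π * co n := by
  have h1 := FF_coeff n
  rw [fourierCoeff_eq_intervalIntegral _ n (-π)] at h1
  have h2 : ∫ t in (-π)..(-π + 2 * π), Complex.exp (-(n * t * Complex.I)) * Fc t =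
      ∫ t in (-π)..(-π + 2 * π), fourier (-n) (t : AddCircle (2 * π)) •
        (FF : AddCircle (2 * π) → ℂ) (t : AddCircle (2 * π)) := by
    apply intervalIntegral.integral_congr
    intro t _
    simp only [smul_eq_mul]
    rw [fourier_coe_apply]
    congr 2
    push_cast
    have : (π : ℂ) ≠ 0 := by exact_mod_cast Real.pi_ne_zero
    field_simp
  rw [h2, ← h1, Complex.real_smul]
  push_cast
  have : (π : ℂ) ≠ 0 := by exact_mod_cast Real.pi_ne_zero
  field_simp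

/-- complex exponentials are continuous -/
lemma exp_cont (c : ℂ) : Continuous fun t : ℝ => Complex.exp (c * t * Complex.I) := by
  fun_prop

lemma Fc_cos (j : ℕ) : ∫ t in (-π)..(-π + 2 * π), Fc t * (Real.cos ((3 ^ j : ℕ) * t) : ℂ) =
    π * ((1 / ((j:ℝ) + 1) : ℝ) : ℂ) := by
  have h1 := Fc_coeff ((3:ℤ) ^ j)
  have h2 := Fc_coeff (-(3:ℤ) ^ j)
  rw [co_pow] at h1
  rw [co_neg] at h2
  have i1 : IntervalIntegrable (fun t : ℝ =>
      Complex.exp (-(((3:ℤ) ^ j : ℤ) * t * Complex.I)) * Fc t) volume (-π) (-π + 2 * π) := by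
    refine Fc_int.continuousOn_mul ?_
    fun_prop
  have i2 : IntervalIntegrable (fun t : ℝ =>
      Complex.exp (-((-(3:ℤ) ^ j : ℤ) * t * Complex.I)) * Fc t) volume (-π) (-π + 2 * π) := by
    refine Fc_int.continuousOn_mul ?_
    fun_prop
  have e : ∀ t : ℝ, Fc t * (Real.cos ((3 ^ j : ℕ) * t) : ℂ) =
      (Complex.exp (-(((3:ℤ) ^ j : ℤ) * t * Complex.I)) * Fc t +
        Complex.exp (-((-(3:ℤ) ^ j : ℤ) * t * Complex.I)) * Fc t) / 2 := by
    intro t
    rw [← add_mul]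
    have h3 := Complex.two_cos ((3 ^ j : ℕ) * t : ℂ)
    rw [Complex.ofReal_cos]
    push_cast at h3 ⊢
    have h4 : Complex.exp (-(3 ^ j * t * Complex.I)) + Complex.exp (-(-3 ^ j * t * Complex.I)) =
        2 * Complex.cos (3 ^ j * t) := by
      rw [h3, add_comm]
      congr 2 <;> ring
    rw [h4]
    ring
  simp_rw [e]
  rw [intervalIntegral.integral_div, intervalIntegral.integral_add i1 i2, h1, h2]
  ring

lemma Fc_sin (j : ℕ) : ∫ t in (-π)..(-π + 2 * π), Fc t * (Real.sin ((3 ^ j : ℕ) * t) : ℂ) =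
    -Complex.I * (π * ((1 / ((j:ℝ) + 1) : ℝ) : ℂ)) * (-1) := by
  have h1 := Fc_coeff ((3:ℤ) ^ j)
  have h2 := Fc_coeff (-(3:ℤ) ^ j)
  rw [co_pow] at h1
  rw [co_neg] at h2
  have i1 : IntervalIntegrable (fun t : ℝ =>
      Complex.exp (-(((3:ℤ) ^ j : ℤ) * t * Complex.I)) * Fc t) volume (-π) (-π + 2 * π) := by
    refine Fc_int.continuousOn_mul ?_
    fun_prop
  have i2 : IntervalIntegrable (fun t : ℝ =>
      Complex.exp (-((-(3:ℤ) ^ j : ℤ) * t * Complex.I)) * Fc t) volume (-π) (-π + 2 * π) := by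
    refine Fc_int.continuousOn_mul ?_
    fun_prop
  have e : ∀ t : ℝ, Fc t * (Real.sin ((3 ^ j : ℕ) * t) : ℂ) =
      (Complex.exp (-(((3:ℤ) ^ j : ℤ) * t * Complex.I)) * Fc t -
        Complex.exp (-((-(3:ℤ) ^ j : ℤ) * t * Complex.I)) * Fc t) * (Complex.I / 2) := by
    intro t
    rw [← sub_mul]
    have h3 := Complex.two_sin ((3 ^ j : ℕ) * t : ℂ)
    rw [Complex.ofReal_sin]
    push_cast at h3 ⊢
    have h4 : (Complex.exp (-(3 ^ j * t * Complex.I)) - Complex.exp (-(-3 ^ j * t * Complex.I))) *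
        Complex.I = 2 * Complex.sin (3 ^ j * t) := by
      rw [h3]
      congr 2
      · congr 1; ring
      · congr 1; ring
    calc Fc t * Complex.sin (3 ^ j * t) = Fc t * (2 * Complex.sin (3 ^ j * t)) / 2 := by ring
      _ = _ := by rw [← h4]; ring
  simp_rw [e]
  rw [intervalIntegral.integral_mul_const, intervalIntegral.integral_sub i1 i2, h1, h2]
  ring

/-- shifts by `π` -/
lemma shift_pi (g : ℝ → ℝ) (hg : ∀ t, g (t + 2 * π) = g t) :
    ∫ t in (-π)..(-π + 2 * π), g (t + π) = ∫ t in (-π)..(-π + 2 * π), g t := by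
  rw [intervalIntegral.integral_comp_add_right]
  have h : Function.Periodic g (2 * π) := hg
  have := h.intervalIntegral_add_eq (-π + π) (-π)
  rw [← this]
  congr 1
  ring

lemma re_int {g : ℝ → ℂ} (hg : IntervalIntegrable g volume (-π) (-π + 2 * π)) :
    ∫ t in (-π)..(-π + 2 * π), (g t).re = (∫ t in (-π)..(-π + 2 * π), g t).re := by
  have := Complex.reCLM.intervalIntegral_comp_comm hg
  simpa using this

lemma odd_pow (j : ℕ) : Odd (3 ^ j) := Odd.pow (by decide)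

lemma cos_odd {m : ℕ} (hm : Odd m) (t : ℝ) : Real.cos (m * (t + π)) = - Real.cos (m * t) := by
  obtain ⟨k, rfl⟩ := hm
  have : (((2 * k + 1 : ℕ) : ℝ)) * (t + π) = ((2 * k + 1 : ℕ) : ℝ) * t + π + (k : ℕ) * (2 * π) := by
    push_cast; ring
  rw [this, Real.cos_add_nat_mul_two_pi, Real.cos_add_pi]

lemma sin_odd {m : ℕ} (hm : Odd m) (t : ℝ) : Real.sin (m * (t + π)) = - Real.sin (m * t) := by
  obtain ⟨k, rfl⟩ := hm
  have : (((2 * k + 1 : ℕ) : ℝ)) * (t + π) = ((2 * k + 1 : ℕ) : ℝ) * t + π + (k : ℕ) * (2 * π) := by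
    push_cast; ring
  rw [this, Real.sin_add_nat_mul_two_pi, Real.sin_add_pi]

/-- moments of `W` against an antiperiodic function -/
lemma WW_moment (φ : ℝ → ℝ) (hφ : Continuous φ) (hφ2 : ∀ t, φ (t + π) = - φ t) :
    ∫ t in Ioo (-π) π, WW t * φ t =
      (∫ t in (-π)..(-π + 2 * π), Fc t * (φ t : ℂ)).re := by
  have hφ3 : ∀ t, φ (t + 2 * π) = φ t := by
    intro t
    rw [show t + 2 * π = t + π + π by ring, hφ2, hφ2, neg_neg]
  have i0 : IntervalIntegrable (fun t => Fc t * (φ t : ℂ)) volume (-π) (-π + 2 * π) :=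
    Fc_int.mul_continuousOn (Complex.continuous_ofReal.comp hφ).continuousOn
  rw [← re_int i0, ← integral_Ioc_eq_integral_Ioo,
    ← intervalIntegral.integral_of_le (by linarith [Real.pi_pos])]
  have e0 : ∀ t, (Fc t * (φ t : ℂ)).re = (Fc t).re * φ t := by
    intro t
    rw [Complex.re_mul_ofReal]
  simp_rw [e0]
  have i1 : IntervalIntegrable (fun t => (Fc t).re * φ t) volume (-π) (-π + 2 * π) := by
    have h1 : IntervalIntegrable (fun t => (Fc t * (φ t : ℂ)).re) volume (-π) (-π + 2 * π) :=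
      ⟨Complex.reCLM.integrable_comp i0.1, Complex.reCLM.integrable_comp i0.2⟩
    simp_rw [e0] at h1
    exact h1
  have hi : ∀ t, WW t * φ t = ((Fc t).re * φ t + (Fc (t + π)).re * φ (t + π)) / 2 := by
    intro t
    unfold WW
    rw [hφ2]
    ring
  simp_rw [hi]
  have e1 := shift_pi (fun t => (Fc t).re * φ t) (fun t => by simp only [Fc_per, hφ3])
  have i2 : IntervalIntegrable (fun t => (Fc (t + π)).re * φ (t + π)) volume (-π) (-π + 2 * π) := by
    have hp : Function.Periodic (fun t => (Fc t).re * φ t) (2 * π) := fun t => by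
      simp only [Fc_per, hφ3]
    have i3 := hp.intervalIntegrable (by positivity) i1 (-π + π) (-π + 2 * π + π)
    have := i3.comp_add_right π
    rw [add_sub_cancel_right, add_sub_cancel_right] at this
    exact this
  have hpp : -π + 2 * π = π := by ring
  rw [hpp] at i1 i2 e1 ⊢
  rw [intervalIntegral.integral_div, intervalIntegral.integral_add i1 i2, e1]
  ring

lemma WW_cos (j : ℕ) : ∫ t in Ioo (-π) π, WW t * Real.cos ((3 ^ j : ℕ) * t) = π / ((j:ℝ) + 1) := by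
  rw [WW_moment (fun t => Real.cos ((3 ^ j : ℕ) * t)) (by fun_prop)
    (fun t => cos_odd (odd_pow j) t), Fc_cos]
  rw [← Complex.ofReal_mul, Complex.ofReal_re]
  ring

lemma WW_sin (j : ℕ) : ∫ t in Ioo (-π) π, WW t * Real.sin ((3 ^ j : ℕ) * t) = 0 := by
  rw [WW_moment (fun t => Real.sin ((3 ^ j : ℕ) * t)) (by fun_prop)
    (fun t => sin_odd (odd_pow j) t), Fc_sin]
  rw [← Complex.ofReal_mul]
  simp

end Pool.Agent.P8H66.RS
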