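import Pool.Agent.P8H66.RS.G
import Pool.Agent.P8H66.RS.H

/-! # Rough homogeneous kernels: the test functions -/

set_option autoImplicit false

open MeasureTheory Filter Topology Metric Set
open scoped Real ENNReal NNReal

namespace Pool.Agent.P8H66.RS

/-- a smooth bump, equal to one on `[3/2, 5/2]`, supported in `(1, 3)` -/
noncomputable def bump : ContDiffBump (2:ℝ) := ⟨1 / 2, 1, by norm_num, by norm_num⟩

/-- the cut-off -/
noncomputable def cut (j : ℕ) (r : ℝ) : ℝ := bump (r / 3 ^ j)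

lemma cut_meas (j : ℕ) : Measurable (cut j) :=
  (bump.continuous.comp (continuous_id.div_const _)).measurable

lemma cut_nonneg (j : ℕ) (r : ℝ) : 0 ≤ cut j r := bump.nonneg

lemma cut_le_one (j : ℕ) (r : ℝ) : cut j r ≤ 1 := bump.le_one

lemma cut_zero (j : ℕ) (r : ℝ) (h : r ≤ (3 ^ j : ℕ) ∨ 3 * ((3 ^ j : ℕ) : ℝ) ≤ r) : cut j r = 0 := by
  unfold cut
  apply bump.zero_of_le_dist
  show (1:ℝ) ≤ _
  have h3 : (0:ℝ) < 3 ^ j := by positivity
  push_cast at h
  rw [Real.dist_eq]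
  rcases h with h | h
  · have : r / 3 ^ j ≤ 1 := by rw [div_le_one h3]; exact h
    rw [abs_of_nonpos (by linarith)]
    linarith
  · have : 3 ≤ r / 3 ^ j := by rw [le_div_iff₀ h3]; exact h
    rw [abs_of_nonneg (by linarith)]
    linarith

lemma cut_one (j : ℕ) (r : ℝ) (h1 : 3 / 2 * ((3 ^ j : ℕ) : ℝ) ≤ r)
    (h2 : r ≤ 5 / 2 * ((3 ^ j : ℕ) : ℝ)) : cut j r = 1 := by
  unfold cut
  apply bump.one_of_mem_closedBall
  have h3 : (0:ℝ) < 3 ^ j := by positivity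
  push_cast at h1 h2
  rw [mem_closedBall, Real.dist_eq, abs_le]
  constructor
  · have : 3 / 2 ≤ r / 3 ^ j := by rw [le_div_iff₀ h3]; exact h1
    show -(1 / 2 : ℝ) ≤ _
    linarith
  · have : r / 3 ^ j ≤ 5 / 2 := by rw [div_le_iff₀ h3]; exact h2
    show _ ≤ (1 / 2 : ℝ)
    linarith

/-- the waves -/
noncomputable def wv (j : ℕ) : ℂ → ℝ := wave (cut j) (3 ^ j)

lemma wv_eq (j : ℕ) (y : ℂ) : wv j y = bump (‖y‖ / 3 ^ j) * ((y / ‖y‖) ^ (3 ^ j)).re := by
  rcases eq_or_ne y 0 with rfl | hy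
  · unfold wv wave
    rw [norm_zero, cut_zero _ _ (Or.inl (Nat.cast_nonneg _)), zero_mul]
    have : bump (0 / 3 ^ j) = 0 := cut_zero j 0 (Or.inl (Nat.cast_nonneg _))
    rw [this, zero_mul]
  · unfold wv wave cut
    congr 1
    have h1 : y / ‖y‖ = Complex.exp (y.arg * Complex.I) := by
      have h2 : (‖y‖ : ℂ) ≠ 0 := by
        rw [Ne, Complex.ofReal_eq_zero, norm_eq_zero]; exact hy
      rw [div_eq_iff h2, mul_comm]
      exact (Complex.norm_mul_exp_arg_mul_I y).symm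
    rw [h1, ← Complex.exp_nat_mul]
    rw [show (((3 ^ j : ℕ) : ℂ)) * (y.arg * Complex.I) = (((3 ^ j : ℕ) * y.arg : ℝ) : ℂ) * Complex.I by
      push_cast; ring, Complex.exp_ofReal_mul_I_re]

lemma wv_contDiff (j : ℕ) : ContDiff ℝ 1 (wv j) := by
  have h0 : wv j = fun y : ℂ => bump (‖y‖ / 3 ^ j) * ((y / ‖y‖) ^ (3 ^ j)).re := by
    funext y
    exact wv_eq j y
  rw [contDiff_iff_contDiffAt]
  intro y
  rcases eq_or_ne y 0 with rfl | hy
  · have h1 : wv j =ᶠ[𝓝 (0:ℂ)] fun _ => 0 := by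
      have h2 : ∀ᶠ y : ℂ in 𝓝 (0:ℂ), ‖y‖ < 1 := by
        have := Metric.ball_mem_nhds (0:ℂ) one_pos
        filter_upwards [this] with y hy
        rwa [mem_ball_zero_iff] at hy
      filter_upwards [h2] with y hy
      unfold wv wave
      rw [cut_zero _ _ (Or.inl ?_), zero_mul]
      push_cast
      exact hy.le.trans (one_le_pow₀ (by norm_num))
    exact contDiffAt_const.congr_of_eventuallyEq h1
  · rw [h0]
    have hn : ContDiffAt ℝ 1 (fun y : ℂ => ‖y‖) y := contDiffAt_norm ℝ hy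
    have hn' : ContDiffAt ℝ 1 (fun y : ℂ => y / (‖y‖ : ℂ)) y := by
      have h1 : (fun y : ℂ => y / (‖y‖ : ℂ)) = fun y : ℂ => (‖y‖⁻¹ : ℝ) • y := by
        funext z
        rw [Complex.real_smul, Complex.ofReal_inv, div_eq_inv_mul]
      rw [h1]
      exact (hn.inv (norm_ne_zero_iff.2 hy)).smul contDiffAt_id
    refine ContDiffAt.mul ?_ ?_
    · exact (bump.contDiff (n := 1)).contDiffAt.comp y (hn.div_const _)
    · refine Complex.reCLM.contDiff.contDiffAt.comp y ?_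
      exact hn'.pow _

lemma wv_zero (j : ℕ) (y : ℂ) (h : ‖y‖ ≤ (3 ^ j : ℕ) ∨ 3 * ((3 ^ j : ℕ) : ℝ) ≤ ‖y‖) : wv j y = 0 := by
  unfold wv wave
  rw [cut_zero _ _ h, zero_mul]

lemma wv_compact (j : ℕ) : HasCompactSupport (wv j) := by
  apply HasCompactSupport.of_support_subset_isCompact (isCompact_closedBall (0:ℂ) (3 * (3 ^ j : ℕ)))
  intro y hy
  rw [mem_closedBall_zero_iff]
  by_contra h
  push Not at h
  exact hy (wv_zero j y (Or.inr h.le))

lemma wv_abs (j : ℕ) (y : ℂ) : |wv j y| ≤ 1 := by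
  unfold wv wave
  rw [abs_mul]
  refine mul_le_one₀ ?_ (abs_nonneg _) (Real.abs_cos_le_one _)
  rw [abs_of_nonneg (cut_nonneg _ _)]
  exact cut_le_one _ _

lemma wv_lip (j : ℕ) : ∃ L : ℝ≥0, LipschitzWith L (wv j) :=
  (wv_contDiff j).lipschitzWith_of_hasCompactSupport (wv_compact j) (by norm_num)

/-- sum of waves -/
noncomputable def sw (s : Finset ℕ) (y : ℂ) : ℝ := ∑ j ∈ s, wv j y

lemma sw_abs (s : Finset ℕ) (y : ℂ) : |sw s y| ≤ 1 := by
  unfold sw
  by_cases h : ∀ j ∈ s, wv j y = 0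
  · rw [Finset.sum_eq_zero h, abs_zero]
    exact zero_le_one
  · push Not at h
    obtain ⟨j, hj, hne⟩ := h
    rw [Finset.sum_eq_single_of_mem j hj]
    · exact wv_abs j y
    · intro i hi hij
      by_contra hne2
      have a1 : (3:ℝ) ^ j < ‖y‖ ∧ ‖y‖ < 3 * 3 ^ j := by
        constructor
        · by_contra hc
          push Not at hc
          exact hne (wv_zero j y (Or.inl (by push_cast; exact hc)))
        · by_contra hc
          push Not at hc
          exact hne (wv_zero j y (Or.inr (by push_cast; exact hc)))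
      have a2 : (3:ℝ) ^ i < ‖y‖ ∧ ‖y‖ < 3 * 3 ^ i := by
        constructor
        · by_contra hc
          push Not at hc
          exact hne2 (wv_zero i y (Or.inl (by push_cast; exact hc)))
        · by_contra hc
          push Not at hc
          exact hne2 (wv_zero i y (Or.inr (by push_cast; exact hc)))
      have b1 : (3:ℝ) ^ j < 3 ^ (i + 1) := by rw [pow_succ]; linarith [a1.1, a2.2]
      have b2 : (3:ℝ) ^ i < 3 ^ (j + 1) := by rw [pow_succ]; linarith [a1.2, a2.1]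
      have c1 := (pow_lt_pow_iff_right₀ (by norm_num : (1:ℝ) < 3)).1 b1
      have c2 := (pow_lt_pow_iff_right₀ (by norm_num : (1:ℝ) < 3)).1 b2
      omega

lemma sw_contDiff (s : Finset ℕ) : ContDiff ℝ 1 (sw s) := by
  unfold sw
  exact ContDiff.sum fun j _ => wv_contDiff j

lemma sw_compact (s : Finset ℕ) : HasCompactSupport (sw s) := by
  have h : ∀ s : Finset ℕ, HasCompactSupport (fun y => ∑ j ∈ s, wv j y) := by
    intro s
    induction s using Finset.induction_on with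
    | empty =>
      simp only [Finset.sum_empty]
      exact HasCompactSupport.zero
    | insert a t ha ih =>
      simp_rw [Finset.sum_insert ha]
      exact (wv_compact a).add ih
  exact h s

lemma sw_lip (s : Finset ℕ) : ∃ L : ℝ≥0, LipschitzWith L (sw s) :=
  (sw_contDiff s).lipschitzWith_of_hasCompactSupport (sw_compact s) (by norm_num)

lemma compact_bound {f : ℂ → ℝ} (hf : HasCompactSupport f) : ∃ M : ℝ, ∀ y, M < ‖y‖ → f y = 0 := by
  obtain ⟨M, hM⟩ := hf.isBounded.subset_closedBall (0:ℂ)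
  refine ⟨M, fun y hy => ?_⟩
  by_contra h
  have := hM (subset_tsupport f (Function.mem_support.2 h))
  rw [mem_closedBall_zero_iff] at this
  linarith

lemma pv_sum {W : ℝ → ℝ} (h : Adm W) (s : Finset ℕ) (x : ℂ) :
    pv W (sw s) x = ∑ j ∈ s, pv W (wv j) x := by
  unfold pv
  rw [← integral_finsetSum]
  · congr 1
    funext y
    unfold sw
    rw [← Finset.sum_sub_distrib, Finset.mul_sum, Finset.sum_div]
  · intro j _
    obtain ⟨L, hL⟩ := wv_lip j
    obtain ⟨M, hM⟩ := compact_bound (wv_compact j)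
    exact pv_integrable h hL hM x

/-- lower bound for one wave, in terms of the principal value -/
lemma pv_wave {j : ℕ} (hj : 1 ≤ j) {ρ : ℝ} (hρ0 : 0 < ρ) (hρ1 : ρ ≤ 1 / π)
    (hρ2 : π ^ 2 * ρ ^ 2 / 2 ≤ V2 / (72 * π ^ 2))
    (hm8 : 8 / ((3 ^ j : ℕ) : ℝ) ≤ V2 / (72 * π ^ 2)) :
    π / ((j:ℝ) + 1) * (V2 / (36 * π ^ 2) * (2 / 9)) ≤
      (⨍ x in ball (0:ℂ) 1, pv WW (wv j) x) - ⨍ x in ball (0:ℂ) ρ, pv WW (wv j) x := by
  have hpi := Real.pi_pos
  have hρ3 : ρ ≤ 1 := by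
    refine hρ1.trans ?_
    rw [div_le_one hpi]
    linarith [Real.pi_gt_three]
  obtain ⟨L, hL⟩ := wv_lip j
  obtain ⟨M, hM⟩ := compact_bound (wv_compact j)
  have h3 : (3:ℝ) ≤ ((3 ^ j : ℕ) : ℝ) := by
    push_cast
    calc (3:ℝ) = 3 ^ 1 := (pow_one _).symm
      _ ≤ 3 ^ j := pow_le_pow_right₀ (by norm_num) hj
  have hs : ∀ y : ℂ, ‖y‖ < 2 → wv j y = 0 := fun y hy => wv_zero j y (Or.inl (by linarith))
  have h1 := one_wave WW_adm (odd_pow j) (b := π / ((j:ℝ) + 1)) (by positivity) (WW_cos j)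
    (WW_sin j) (cut_meas j) (cut_nonneg j) (cut_le_one j)
    (fun r hr => cut_zero j r (by
      rcases hr with hr | hr
      · exact Or.inl hr.le
      · exact Or.inr hr.le)) (cut_one j) hρ0 hρ1 hρ2 (by linarith) hm8
  have e : ∀ s : ℝ, s ≤ 1 → ⨍ x in ball (0:ℂ) s, pv WW (wv j) x =
      ⨍ x in ball (0:ℂ) s, ∫ y : ℂ, ker WW (x - y) * wave (cut j) (3 ^ j) y := by
    intro s hs1
    rw [setAverage_eq, setAverage_eq]
    congr 1
    apply setIntegral_congr_fun measurableSet_ball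
    intro x hx
    rw [mem_ball_zero_iff] at hx
    exact pv_off WW_adm hL hM hs (by linarith)
  rw [e 1 le_rfl, e ρ hρ3]
  exact h1

/-- comparison of means and mean oscillation -/
lemma mean_osc {g : ℂ → ℝ} (hg : IntegrableOn g (ball (0:ℂ) 1)) {ρ : ℝ} (hρ0 : 0 < ρ) (hρ1 : ρ ≤ 1) :
    (⨍ x in ball (0:ℂ) 1, g x) - (⨍ x in ball (0:ℂ) ρ, g x) ≤
      volume.real (ball (0:ℂ) 1) / volume.real (ball (0:ℂ) ρ) *
        ⨍ x in ball (0:ℂ) 1, |g x - ⨍ y in ball (0:ℂ) 1, g y| := by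
  set a := ⨍ y in ball (0:ℂ) 1, g y with ha
  have hv1 := vol_pos one_pos
  have hvρ := vol_pos hρ0
  have hsub : ball (0:ℂ) ρ ⊆ ball 0 1 := ball_subset_ball hρ1
  have hgρ := hg.mono_set hsub
  have hc : ∀ s : ℝ, IntegrableOn (fun _ : ℂ => a) (ball (0:ℂ) s) := fun s =>
    integrableOn_const measure_ball_lt_top.ne
  have h1 : a - (⨍ x in ball (0:ℂ) ρ, g x) =
      (volume.real (ball (0:ℂ) ρ))⁻¹ * ∫ x in ball (0:ℂ) ρ, (a - g x) := by
    have hcc : Integrable (fun _ : ℂ => a) (volume.restrict (ball (0:ℂ) ρ)) := hc ρ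
    rw [integral_sub hcc hgρ, setIntegral_const, smul_eq_mul, setAverage_eq, smul_eq_mul]
    field_simp
  rw [h1]
  have h2 : ∫ x in ball (0:ℂ) ρ, (a - g x) ≤ ∫ x in ball (0:ℂ) ρ, |g x - a| := by
    refine setIntegral_mono_on ((hc ρ).sub hgρ) ((hgρ.sub (hc ρ)).abs) measurableSet_ball
      fun x _ => ?_
    rw [abs_sub_comm]
    exact le_abs_self _
  have h3 : ∫ x in ball (0:ℂ) ρ, |g x - a| ≤ ∫ x in ball (0:ℂ) 1, |g x - a| :=
    setIntegral_mono_set ((hg.sub (hc 1)).abs) (ae_of_all _ fun x => abs_nonneg _)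
      hsub.eventuallyLE
  rw [setAverage_eq (f := fun x => |g x - a|), smul_eq_mul]
  calc (volume.real (ball (0:ℂ) ρ))⁻¹ * ∫ x in ball (0:ℂ) ρ, (a - g x)
      ≤ (volume.real (ball (0:ℂ) ρ))⁻¹ * ∫ x in ball (0:ℂ) 1, |g x - a| :=
        mul_le_mul_of_nonneg_left (h2.trans h3) (by positivity)
    _ = _ := by field_simp

/-- **The singular integral with kernel `ker WW` is not bounded from `L^∞` to `BMO`.** -/
theorem main (C : ℝ) (hC : ∀ f : ℂ → ℝ, ContDiff ℝ 1 f → HasCompactSupport f → (∀ x, |f x| ≤ 1) →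
    IntegrableOn (pv WW f) (ball (0:ℂ) 1) ∧
      ⨍ x in ball (0:ℂ) 1, |pv WW f x - ⨍ y in ball (0:ℂ) 1, pv WW f y| ≤ C) : False := by
  have hpi := Real.pi_pos
  have hV := V2_pos
  set δ : ℝ := V2 / (72 * π ^ 2) with hδ
  have hδ0 : 0 < δ := by positivity
  obtain ⟨ρ, hρ0, hρ1, hρ2⟩ : ∃ ρ : ℝ, 0 < ρ ∧ ρ ≤ 1 / π ∧ π ^ 2 * ρ ^ 2 / 2 ≤ δ := by
    refine ⟨min (1 / π) (Real.sqrt (2 * δ) / π), ?_, min_le_left _ _, ?_⟩
    · exact lt_min (by positivity) (by positivity)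
    · have h1 : min (1 / π) (Real.sqrt (2 * δ) / π) ^ 2 ≤ (Real.sqrt (2 * δ) / π) ^ 2 :=
        pow_le_pow_left₀ (le_min (by positivity) (by positivity)) (min_le_right _ _) 2
      rw [div_pow, Real.sq_sqrt (by positivity)] at h1
      calc π ^ 2 * min (1 / π) (Real.sqrt (2 * δ) / π) ^ 2 / 2 ≤ π ^ 2 * (2 * δ / π ^ 2) / 2 := by
            gcongr
        _ = δ := by field_simp
  have hρ3 : ρ ≤ 1 := by
    refine hρ1.trans ?_
    rw [div_le_one hpi]
    linarith [Real.pi_gt_three]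
  obtain ⟨j0, hj0⟩ : ∃ j0 : ℕ, 8 / δ ≤ 3 ^ j0 := by
    obtain ⟨n, hn⟩ := pow_unbounded_of_one_lt (8 / δ) (by norm_num : (1:ℝ) < 3)
    exact ⟨n, hn.le⟩
  have hm8 : ∀ j, j0 ≤ j → 8 / ((3 ^ j : ℕ) : ℝ) ≤ δ := by
    intro j hj
    push_cast
    have h1 : (3:ℝ) ^ j0 ≤ 3 ^ j := pow_le_pow_right₀ (by norm_num) hj
    rw [div_le_iff₀ (by positivity)]
    rw [div_le_iff₀ hδ0] at hj0
    nlinarith
  set R : ℝ := volume.real (ball (0:ℂ) 1) / volume.real (ball (0:ℂ) ρ) with hR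
  have hR0 : 0 < R := div_pos (vol_pos one_pos) (vol_pos hρ0)
  have key : ∀ N : ℕ, ∑ j ∈ Finset.Ico (j0 + 1) N,
      π / ((j:ℝ) + 1) * (V2 / (36 * π ^ 2) * (2 / 9)) ≤ R * C := by
    intro N
    obtain ⟨hi, ho⟩ := hC (sw (Finset.Ico (j0 + 1) N)) (sw_contDiff _) (sw_compact _) (sw_abs _)
    have h1 := (mean_osc hi hρ0 hρ3).trans (mul_le_mul_of_nonneg_left ho hR0.le)
    refine le_trans ?_ h1
    have hj : ∀ j, IntegrableOn (pv WW (wv j)) (ball (0:ℂ) 1) := fun j =>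
      (hC (wv j) (wv_contDiff j) (wv_compact j) (wv_abs j)).1
    have e : ∀ s : ℝ, s ≤ 1 → ⨍ x in ball (0:ℂ) s, pv WW (sw (Finset.Ico (j0 + 1) N)) x =
        ∑ j ∈ Finset.Ico (j0 + 1) N, ⨍ x in ball (0:ℂ) s, pv WW (wv j) x := by
      intro s hs
      simp_rw [pv_sum WW_adm, setAverage_eq, smul_eq_mul]
      rw [integral_finsetSum, Finset.mul_sum]
      intro j _
      exact (hj j).mono_set (ball_subset_ball hs)
    rw [e 1 le_rfl, e ρ hρ3, ← Finset.sum_sub_distrib]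
    refine Finset.sum_le_sum fun j hj => ?_
    rw [Finset.mem_Ico] at hj
    exact pv_wave (by omega) hρ0 hρ1 hρ2 (hm8 j (by omega))
  -- the harmonic series diverges
  set K : ℝ := π * (V2 / (36 * π ^ 2) * (2 / 9)) with hK
  have hK0 : 0 < K := by positivity
  have h2 : ∀ N : ℕ, j0 + 1 ≤ N → ∑ j ∈ Finset.range N, 1 / ((j:ℝ) + 1) ≤
      R * C / K + ∑ j ∈ Finset.range (j0 + 1), 1 / ((j:ℝ) + 1) := by
    intro N hN
    have h3 := key N
    have h4 : ∑ j ∈ Finset.Ico (j0 + 1) N, π / ((j:ℝ) + 1) * (V2 / (36 * π ^ 2) * (2 / 9)) =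
        K * ∑ j ∈ Finset.Ico (j0 + 1) N, 1 / ((j:ℝ) + 1) := by
      rw [Finset.mul_sum]
      refine Finset.sum_congr rfl fun j _ => ?_
      rw [hK]
      ring
    rw [h4] at h3
    rw [← Finset.sum_range_add_sum_Ico _ hN, add_comm]
    gcongr
    rw [le_div_iff₀ hK0, mul_comm]
    exact h3
  have h5 := Real.tendsto_sum_range_one_div_nat_succ_atTop
  obtain ⟨N, hN⟩ := ((h5.eventually_gt_atTop
    (R * C / K + ∑ j ∈ Finset.range (j0 + 1), 1 / ((j:ℝ) + 1))).and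
      (eventually_ge_atTop (j0 + 1))).exists
  exact absurd (h2 N hN.2) (not_le.2 hN.1)

end Pool.Agent.P8H66.RS
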